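import Mathlib
import Pool.Agent.Run7.h18.MK.Sys3

/-! Primes `a_i + f_i(m)` with `m` in a window, all systems at once. Coefficients on a residue class. -/

set_option autoImplicit false

namespace Pool.Agent.Run7.h18.WA

open Finset Filter Polynomial
open Pool.Agent.Run7.h18.MK
open Pool.Agent.R460.SQ (thp)

/-- **Windows.** -/
theorem sys_window (k d T U A : ℕ) (hk : 1 ≤ k) (hd : 1 ≤ d) : ∃ C N₀ : ℕ, ∀ N : ℕ, N₀ ≤ N →
    ∃ Ex : Finset (Fin k → ℕ), (Ex.card : ℝ) ≤ (N : ℝ) ^ k / Real.log N ^ U ∧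
    ∀ a ∈ Fintype.piFinset (fun _ : Fin k => Icc 1 N), a ∉ Ex → ∀ F : Fin k → ℤ[X],
      (∀ i, 1 ≤ (F i).natDegree ∧ (F i).natDegree ≤ d ∧ ∀ j, |(((F i).coeff j : ℤ) : ℝ)| ≤ Real.log N ^ T) →
      (∀ p : ℕ, p.Prime → ∃ m : ℤ, ∀ i, ¬ (p : ℤ) ∣ (a i : ℤ) + (F i).eval m) → ∀ x1 x2 : ℕ, x1 < x2 →
      (x1 = 0 ∨ ∀ i, (N : ℝ) ^ (1 / 3 : ℝ) * Real.log N ^ C ≤ (x1 : ℝ) ^ (F i).natDegree) →
      (∀ i, (N : ℝ) ^ (1 / 3 : ℝ) * Real.log N ^ C ≤ (x2 : ℝ) ^ (F i).natDegree ∧ (x2 : ℝ) ^ (F i).natDegree * Real.log N ^ C ≤ N) →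
      (x2 : ℝ) ≤ ((x2 : ℝ) - x1) * Real.log N ^ A →
      ∃ m : ℕ, x1 < m ∧ m ≤ x2 ∧ ∀ i, 1 ≤ (a i : ℤ) + (F i).eval (m : ℤ) ∧ ((a i : ℤ) + (F i).eval (m : ℤ)).toNat.Prime := by
  classical
  obtain ⟨U', hU'⟩ : ∃ U', U' = U + (k * d + A + 3) := ⟨_, rfl⟩
  obtain ⟨C, B, h⟩ := sys_fin k d T U' hk hd
  obtain ⟨N₁, h⟩ := h (B + 1)
  obtain ⟨N₂, h2⟩ := ev 1 3
  refine ⟨C, N₁ + N₂ + 3, fun N hN => ?_⟩
  obtain ⟨hL3, -⟩ := h2 N (by omega)
  have hN0 : (0 : ℝ) < N := by exact_mod_cast (by omega : 0 < N)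
  obtain ⟨L, hL⟩ : ∃ L, L = Real.log (N : ℝ) := ⟨_, rfl⟩
  rw [← hL] at hL3
  have hL1 : 1 ≤ L := by linarith
  have hL0 : 0 < L := by linarith
  obtain ⟨z, hz⟩ : ∃ z : ℕ, z = ⌈L ^ B⌉₊ := ⟨_, rfl⟩
  have hz1 : L ^ B ≤ z := by rw [hz]; exact Nat.le_ceil _
  have hz2 : (z : ℝ) ≤ L ^ (B + 1) := by
    have h1 : (z : ℝ) ≤ L ^ B + 1 := by rw [hz]; exact (Nat.ceil_lt_add_one (by positivity)).le
    have h3 : 1 ≤ L ^ B := one_le_pow₀ hL1
    rw [pow_succ]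
    nlinarith
  obtain ⟨Ex, hE1, hE2⟩ := h N (by omega) z (by rw [← hL]; exact hz1) (by rw [← hL]; exact hz2)
  rw [← hL] at hE1 hE2 ⊢
  refine ⟨Ex, hE1.trans ?_, fun a ha haE F hF hfix x1 x2 h12 hx1 hx2 hwin => ?_⟩
  · apply div_le_div_of_nonneg_left (by positivity) (by positivity)
    exact pow_le_pow_right₀ hL1 (by omega)
  obtain ⟨g1, g2⟩ := hE2 a ha haE F hF
  have hdens : 1 / L ^ (k * d + 1) ≤ dens (gP F a) k z := by
    apply g1
    intro p hp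
    obtain ⟨m, hm⟩ := hfix p hp
    refine ⟨m, ?_⟩
    rw [gP_eval]
    intro hdiv
    obtain ⟨i, -, hi⟩ := (Nat.prime_iff_prime_int.1 hp).dvd_finsetProd_iff _ |>.1 hdiv
    exact hm i hi
  obtain ⟨g3, g4⟩ := g2 x2 hx2
  have hx20 : (0 : ℝ) < x2 := by exact_mod_cast (by omega : 0 < x2)
  have hx12r : (x1 : ℝ) < x2 := by exact_mod_cast h12
  have g5 : |∑ m ∈ Icc 1 x1, ∏ i, thp ((a i : ℤ) + (F i).eval (m : ℤ)).toNat - x1 * dens (gP F a) k z| ≤ x2 / L ^ U' := by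
    rcases hx1 with h0 | h0
    · rw [h0]
      simp only [Nat.cast_zero, zero_mul, sub_zero]
      rw [show Icc 1 0 = (∅ : Finset ℕ) from rfl, sum_empty, abs_zero]
      positivity
    · have hh := (g2 x1 (fun i => ⟨h0 i, le_trans (mul_le_mul_of_nonneg_right
        (pow_le_pow_left₀ (Nat.cast_nonneg _) hx12r.le _) (by positivity)) (hx2 i).2⟩)).2
      refine hh.trans ?_
      exact div_le_div_of_nonneg_right hx12r.le (by positivity)
  have hsplit : ∑ m ∈ Icc 1 x2, ∏ i, thp ((a i : ℤ) + (F i).eval (m : ℤ)).toNat =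
      ∑ m ∈ Icc 1 x1, ∏ i, thp ((a i : ℤ) + (F i).eval (m : ℤ)).toNat +
      ∑ m ∈ Ioc x1 x2, ∏ i, thp ((a i : ℤ) + (F i).eval (m : ℤ)).toNat := by
    have e1 : Icc 1 x2 = Ioc 0 x2 := by ext m; simp only [mem_Icc, mem_Ioc]; omega
    have e2 : Icc 1 x1 = Ioc 0 x1 := by ext m; simp only [mem_Icc, mem_Ioc]; omega
    rw [e1, e2, sum_Ioc_consecutive _ (Nat.zero_le _) h12.le]
  have hpos : 0 < ∑ m ∈ Ioc x1 x2, ∏ i, thp ((a i : ℤ) + (F i).eval (m : ℤ)).toNat := by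
    have b1 := (abs_le.1 g4).1
    have b2 := (abs_le.1 g5).2
    have b3 : 2 * (x2 / L ^ U') < ((x2 : ℝ) - x1) * dens (gP F a) k z := by
      have c1 : (x2 : ℝ) / L ^ A ≤ (x2 : ℝ) - x1 := by
        rw [div_le_iff₀ (by positivity)]
        exact hwin
      have c2 : (x2 : ℝ) / L ^ A * (1 / L ^ (k * d + 1)) ≤ ((x2 : ℝ) - x1) * dens (gP F a) k z :=
        mul_le_mul c1 hdens (by positivity) (by linarith)
      refine lt_of_lt_of_le ?_ c2
      rw [div_mul_div_comm, mul_one, ← pow_add, ← mul_div_assoc, div_lt_div_iff₀ (by positivity) (by positivity)]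
      have e3 : L ^ U' = L ^ (A + (k * d + 1)) * L ^ (U + 2) := by rw [← pow_add, hU']; congr 1; ring
      rw [e3]
      have e4 : 2 < L ^ (U + 2) := by
        calc (2 : ℝ) < L := by linarith
          _ ≤ _ := le_self_pow₀ hL1 (by omega)
      have e5 : 0 < (x2 : ℝ) * L ^ (A + (k * d + 1)) := by positivity
      nlinarith
    rw [hsplit] at b1
    have e6 : ((x2 : ℝ) - x1) * dens (gP F a) k z = x2 * dens (gP F a) k z - x1 * dens (gP F a) k z := by ring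
    rw [e6] at b3
    linarith
  obtain ⟨m, hm, hm2⟩ := exists_ne_zero_of_sum_ne_zero hpos.ne'
  rw [mem_Ioc] at hm
  refine ⟨m, hm.1, hm.2, fun i => ⟨g3 i m (mem_Icc.2 ⟨by omega, hm.2⟩), ?_⟩⟩
  by_contra hcon
  apply hm2
  apply prod_eq_zero (mem_univ i)
  unfold thp
  rw [if_neg hcon]

/-- the coefficients of a power of a linear polynomial -/
lemma coeff_lin_pow (u M : ℤ) (i : ℕ) : ∀ j, |((((C u + C M * X : ℤ[X]) ^ i).coeff j : ℤ) : ℝ)| ≤ (|(u : ℝ)| + |(M : ℝ)|) ^ i := by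
  induction i with
  | zero =>
    intro j
    rw [pow_zero, pow_zero, coeff_one]
    split_ifs <;> simp
  | succ i ih =>
    intro j
    have e : (C u + C M * X : ℤ[X]) ^ (i + 1) = C u * (C u + C M * X) ^ i + C M * ((C u + C M * X) ^ i * X) := by ring
    rw [e, coeff_add, coeff_C_mul, coeff_C_mul, Int.cast_add, Int.cast_mul, Int.cast_mul]
    have h2 : |(((((C u + C M * X : ℤ[X]) ^ i * X).coeff j : ℤ)) : ℝ)| ≤ (|(u : ℝ)| + |(M : ℝ)|) ^ i := by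
      cases j with
      | zero =>
        rw [coeff_mul_X_zero, Int.cast_zero, abs_zero]
        positivity
      | succ j =>
        rw [coeff_mul_X]
        exact ih j
    calc |(u : ℝ) * (((C u + C M * X : ℤ[X]) ^ i).coeff j : ℤ) + (M : ℝ) * (((C u + C M * X : ℤ[X]) ^ i * X).coeff j : ℤ)| ≤
        |(u : ℝ)| * |((((C u + C M * X : ℤ[X]) ^ i).coeff j : ℤ) : ℝ)| +
        |(M : ℝ)| * |(((((C u + C M * X : ℤ[X]) ^ i * X).coeff j : ℤ)) : ℝ)| := by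
          refine (abs_add_le _ _).trans ?_
          rw [abs_mul, abs_mul]
      _ ≤ |(u : ℝ)| * (|(u : ℝ)| + |(M : ℝ)|) ^ i + |(M : ℝ)| * (|(u : ℝ)| + |(M : ℝ)|) ^ i := by
          have := ih j
          gcongr
      _ = _ := by ring

/-- the coefficients of a composition with a linear polynomial -/
lemma coeff_comp_lin (G : ℤ[X]) (d : ℕ) (hG : G.natDegree ≤ d) (H R : ℝ) (hH : ∀ i, |((G.coeff i : ℤ) : ℝ)| ≤ H) (u M : ℤ)
    (hR : |(u : ℝ)| + |(M : ℝ)| ≤ R) (hR1 : 1 ≤ R) (j : ℕ) :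
    |(((G.comp (C u + C M * X)).coeff j : ℤ) : ℝ)| ≤ (d + 1) * (H * R ^ d) := by
  have hH0 : 0 ≤ H := (abs_nonneg _).trans (hH 0)
  have e : G.comp (C u + C M * X) = ∑ i ∈ range (d + 1), C (G.coeff i) * (C u + C M * X) ^ i := by
    rw [comp, eval₂_eq_sum_range' C (Nat.lt_succ_of_le hG)]
  rw [e, finsetSum_coeff, Int.cast_sum]
  refine (abs_sum_le_sum_abs _ _).trans ?_
  calc ∑ i ∈ range (d + 1), |((((C (G.coeff i) * (C u + C M * X) ^ i : ℤ[X])).coeff j : ℤ) : ℝ)| ≤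
      ∑ _i ∈ range (d + 1), H * R ^ d := by
        refine sum_le_sum fun i hi => ?_
        rw [coeff_C_mul, Int.cast_mul, abs_mul]
        have h1 := coeff_lin_pow u M i j
        have h2 : (|(u : ℝ)| + |(M : ℝ)|) ^ i ≤ R ^ d := by
          calc (|(u : ℝ)| + |(M : ℝ)|) ^ i ≤ R ^ i := pow_le_pow_left₀ (by positivity) hR _
            _ ≤ _ := pow_le_pow_right₀ hR1 (by rw [mem_range] at hi; omega)
        exact mul_le_mul (hH i) (h1.trans h2) (abs_nonneg _) hH0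
    _ = _ := by
        rw [sum_const, card_range, nsmul_eq_mul]
        push_cast
        ring

end Pool.Agent.Run7.h18.WA
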