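import Mathlib
import Pool.Agent.Run7.h18.WA.W1
import Pool.Agent.TH204.HP.H3

/-! Heights of the polynomials on a residue class; the exceptional set under affine maps. -/

set_option autoImplicit false

namespace Pool.Agent.Run7.h18.WA

open Finset Filter Polynomial
open Pool.Agent.TH204.HP (GG)

lemma GG_coeff (f : ℤ[X]) (D d : ℕ) (hD : 1 ≤ D) (hf : f.natDegree ≤ d) (H : ℝ) (hH : ∀ i, |((f.coeff i : ℤ) : ℝ)| ≤ H) (i : ℕ) :
    |(((GG f D).coeff i : ℤ) : ℝ)| ≤ H * (D : ℝ) ^ (2 * d) := by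
  have hH0 : 0 ≤ H := (abs_nonneg _).trans (hH 0)
  have hDr : (1 : ℝ) ≤ D := by exact_mod_cast hD
  unfold GG
  rw [coeff_C_mul, coeff_scaleRoots, Int.cast_mul, Int.cast_mul, abs_mul, abs_mul]
  push_cast
  rw [abs_of_nonneg (show (0 : ℝ) ≤ (D : ℝ) ^ f.natDegree by positivity), abs_of_nonneg (show (0 : ℝ) ≤ (D : ℝ) ^ (f.natDegree - i) by positivity)]
  calc (D : ℝ) ^ f.natDegree * (|((f.coeff i : ℤ) : ℝ)| * (D : ℝ) ^ (f.natDegree - i)) ≤ (D : ℝ) ^ d * (H * (D : ℝ) ^ d) := by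
        have h1 : (D : ℝ) ^ f.natDegree ≤ (D : ℝ) ^ d := pow_le_pow_right₀ hDr hf
        have h2 : (D : ℝ) ^ (f.natDegree - i) ≤ (D : ℝ) ^ d := pow_le_pow_right₀ hDr (by omega)
        have := hH i
        gcongr
    _ = _ := by rw [two_mul, pow_add]; ring

lemma F_coeff (f F : ℤ[X]) (D M d c0 u0 : ℕ) (hu0 : u0 < M) (hD : 1 ≤ D) (hf : f.natDegree ≤ d) (hfd : (GG f D).natDegree = f.natDegree)
    (hc0 : 1 ≤ c0) (hF : ∀ x : ℤ, (c0 : ℤ) * F.eval x = (GG f D).eval ((u0 : ℤ) + M * x) - (GG f D).eval (u0 : ℤ))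
    (H : ℝ) (hH : ∀ i, |((f.coeff i : ℤ) : ℝ)| ≤ H) (j : ℕ) :
    |((F.coeff j : ℤ) : ℝ)| ≤ (d + 1) * (H * (D : ℝ) ^ (2 * d) * (2 * M) ^ d) := by
  have hH0 : 0 ≤ H := (abs_nonneg _).trans (hH 0)
  have hMr : (1 : ℝ) ≤ M := by exact_mod_cast (by omega : 1 ≤ M)
  have hP : C (c0 : ℤ) * F = (GG f D).comp (C (u0 : ℤ) + C (M : ℤ) * X) - C ((GG f D).eval (u0 : ℤ)) := by
    apply Polynomial.funext
    intro x
    rw [eval_mul, eval_C, hF x, eval_sub, eval_comp, eval_C, eval_add, eval_mul, eval_C, eval_C, eval_X]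
  rcases Nat.eq_zero_or_pos j with h0 | h0
  · have h1 := hF 0
    rw [mul_zero, add_zero, sub_self] at h1
    have h2 : F.eval 0 = 0 := by
      rcases mul_eq_zero.1 h1 with h | h
      · exfalso
        have : c0 = 0 := by exact_mod_cast h
        omega
      · exact h
    rw [h0, coeff_zero_eq_eval_zero, h2, Int.cast_zero, abs_zero]
    positivity
  · have h1 := congrArg (fun P : ℤ[X] => P.coeff j) hP
    simp only [coeff_C_mul, coeff_sub] at h1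
    rw [coeff_C_of_ne_zero (by omega), sub_zero] at h1
    have h2 := coeff_comp_lin (GG f D) d (by rw [hfd]; exact hf) (H * (D : ℝ) ^ (2 * d)) (2 * M) (GG_coeff f D d hD hf H hH) (u0 : ℤ) (M : ℤ) (by
      push_cast
      rw [abs_of_nonneg (Nat.cast_nonneg _), abs_of_nonneg (Nat.cast_nonneg _)]
      have : (u0 : ℝ) ≤ M := by exact_mod_cast hu0.le
      linarith) (by linarith) j
    rw [← h1, Int.cast_mul, abs_mul] at h2
    refine le_trans ?_ h2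
    apply le_mul_of_one_le_left (abs_nonneg _)
    push_cast
    rw [abs_of_nonneg (Nat.cast_nonneg _)]
    exact_mod_cast hc0

lemma GG_eval_le (f : ℤ[X]) (D M d u0 : ℕ) (hu0 : u0 < M) (hD : 1 ≤ D) (hf : f.natDegree ≤ d) (hfd : (GG f D).natDegree = f.natDegree)
    (H : ℝ) (hH : ∀ i, |((f.coeff i : ℤ) : ℝ)| ≤ H) :
    |(((GG f D).eval (u0 : ℤ) : ℤ) : ℝ)| ≤ (d + 1) * (H * (D : ℝ) ^ (2 * d) * (2 * M) ^ d) := by
  have hMr : (1 : ℝ) ≤ M := by exact_mod_cast (by omega : 1 ≤ M)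
  have h2 := coeff_comp_lin (GG f D) d (by rw [hfd]; exact hf) (H * (D : ℝ) ^ (2 * d)) (2 * M) (GG_coeff f D d hD hf H hH) (u0 : ℤ) (M : ℤ) (by
      push_cast
      rw [abs_of_nonneg (Nat.cast_nonneg _), abs_of_nonneg (Nat.cast_nonneg _)]
      have : (u0 : ℝ) ≤ M := by exact_mod_cast hu0.le
      linarith) (by linarith) 0
  rw [coeff_zero_eq_eval_zero, eval_comp, eval_add, eval_mul, eval_C, eval_C, eval_X, mul_zero, add_zero] at h2
  exact h2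

/-- the exceptional set under affine maps -/
lemma exc_set (k R : ℕ) (hR : 1 ≤ R) (S Ex' : Finset (Fin k → ℕ)) : ∃ Ex : Finset (Fin k → ℕ), Ex.card ≤ (3 * R ^ 3) ^ k * Ex'.card ∧
    ∀ a ∈ S, a ∉ Ex → ∀ (c e : Fin k → ℕ) (v : Fin k → ℤ), (∀ j, 1 ≤ c j ∧ c j ≤ R) → (∀ j, 1 ≤ e j ∧ e j ≤ R) →
      (∀ j, |v j| ≤ R) → (∀ j, (c j : ℤ) ∣ v j + (e j : ℤ) * (a j : ℤ)) → (∀ j, (0 : ℤ) ≤ v j + (e j : ℤ) * (a j : ℤ)) →
      (fun j => ((v j + (e j : ℤ) * (a j : ℤ)) / (c j : ℤ)).toNat) ∉ Ex' := by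
  classical
  obtain ⟨I, hI⟩ : ∃ I : Finset (Fin k → ℕ × ℕ × ℤ), I = Fintype.piFinset (fun _ : Fin k => Icc 1 R ×ˢ Icc 1 R ×ˢ Icc (-(R : ℤ)) R) := ⟨_, rfl⟩
  obtain ⟨Q, hQ⟩ : ∃ Q : (Fin k → ℕ × ℕ × ℤ) → Finset (Fin k → ℕ), Q = fun q => S.filter (fun a =>
    (∀ j, 1 ≤ (q j).2.1) ∧ (∀ j, 1 ≤ (q j).1) ∧ (∀ j, ((q j).1 : ℤ) ∣ (q j).2.2 + ((q j).2.1 : ℤ) * (a j : ℤ)) ∧
      (∀ j, (0 : ℤ) ≤ (q j).2.2 + ((q j).2.1 : ℤ) * (a j : ℤ)) ∧
      (fun j => (((q j).2.2 + ((q j).2.1 : ℤ) * (a j : ℤ)) / ((q j).1 : ℤ)).toNat) ∈ Ex') := ⟨_, rfl⟩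
  have hQc : ∀ q ∈ I, (Q q).card ≤ Ex'.card := by
    intro q _
    rw [hQ]
    apply card_le_card_of_injOn (fun a j => (((q j).2.2 + (q j).2.1 * (a j : ℤ)) / ((q j).1 : ℤ)).toNat)
    · intro a ha
      rw [mem_coe, mem_filter] at ha
      exact ha.2.2.2.2.2
    · intro a ha a' ha' h
      rw [mem_coe, mem_filter] at ha ha'
      obtain ⟨-, h1, h2, h3, h4, -⟩ := ha
      obtain ⟨-, -, -, h3', h4', -⟩ := ha'
      funext j
      have h5 := congrFun h j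
      simp only at h5
      have hc : (0 : ℤ) < ((q j).1 : ℤ) := by exact_mod_cast h2 j
      have he : (0 : ℤ) < ((q j).2.1 : ℤ) := by exact_mod_cast h1 j
      have p1 : 0 ≤ ((q j).2.2 + (q j).2.1 * (a j : ℤ)) / ((q j).1 : ℤ) := Int.ediv_nonneg (h4 j) hc.le
      have p2 : 0 ≤ ((q j).2.2 + (q j).2.1 * (a' j : ℤ)) / ((q j).1 : ℤ) := Int.ediv_nonneg (h4' j) hc.le
      have h6 : ((q j).2.2 + (q j).2.1 * (a j : ℤ)) / ((q j).1 : ℤ) = ((q j).2.2 + (q j).2.1 * (a' j : ℤ)) / ((q j).1 : ℤ) := by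
        rw [← Int.toNat_of_nonneg p1, ← Int.toNat_of_nonneg p2, h5]
      have h7 : (q j).2.2 + (q j).2.1 * (a j : ℤ) = (q j).2.2 + (q j).2.1 * (a' j : ℤ) := by
        rw [← Int.ediv_mul_cancel (h3 j), ← Int.ediv_mul_cancel (h3' j), h6]
      have h8 : ((q j).2.1 : ℤ) * (a j : ℤ) = (q j).2.1 * (a' j : ℤ) := by linarith
      exact_mod_cast mul_left_cancel₀ he.ne' h8
  refine ⟨I.biUnion Q, ?_, ?_⟩
  · refine card_biUnion_le.trans ((sum_le_sum hQc).trans ?_)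
    rw [sum_const, smul_eq_mul]
    apply Nat.mul_le_mul_right
    rw [hI, Fintype.card_piFinset, prod_const, card_univ, Fintype.card_fin]
    apply Nat.pow_le_pow_left
    rw [card_product, card_product, Nat.card_Icc, Int.card_Icc, Nat.add_sub_cancel]
    have h1 : ((R : ℤ) + 1 - -(R : ℤ)).toNat = 2 * R + 1 := by omega
    rw [h1]
    have h2 : 2 * R + 1 ≤ 3 * R := by omega
    calc R * (R * (2 * R + 1)) ≤ R * (R * (3 * R)) := Nat.mul_le_mul_left _ (Nat.mul_le_mul_left _ h2)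
      _ = 3 * R ^ 3 := by ring
  · intro a ha haE c e v hc he hv hdiv hpos hmem
    apply haE
    rw [mem_biUnion]
    refine ⟨fun j => (c j, e j, v j), ?_, ?_⟩
    · rw [hI, Fintype.mem_piFinset]
      intro j
      rw [mem_product, mem_product]
      exact ⟨mem_Icc.2 (hc j), mem_Icc.2 (he j), mem_Icc.2 (abs_le.1 (hv j))⟩
    · rw [hQ, mem_filter]
      exact ⟨ha, fun j => (he j).1, fun j => (hc j).1, hdiv, hpos, hmem⟩

end Pool.Agent.Run7.h18.WA
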