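import Mathlib
import Pool.Agent.Run7.h18.WA.W2
import Pool.Agent.Y714.RC.F1

/-! The window, and the arithmetic part. -/

set_option autoImplicit false

namespace Pool.Agent.Run7.h18.WA

open Finset Filter Polynomial
open Pool.Agent.W313.BMX (Splits splits_swap splits_comm splits_mul_sq)
open Pool.Agent.TH204.HP
open Pool.Agent.Y714.RC (PP core2 row_even val_sq splits_mul_sq')

lemma third (N K : ℕ) (hK : 1 ≤ K) : ((N * K : ℕ) : ℝ) ^ (1 / 3 : ℝ) ≤ (N : ℝ) ^ (1 / 3 : ℝ) * K := by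
  have hKr : (1 : ℝ) ≤ K := by exact_mod_cast hK
  rw [Nat.cast_mul, Real.mul_rpow (Nat.cast_nonneg _) (Nat.cast_nonneg _)]
  apply mul_le_mul_of_nonneg_left _ (by positivity)
  calc (K : ℝ) ^ (1 / 3 : ℝ) ≤ (K : ℝ) ^ (1 : ℝ) := Real.rpow_le_rpow_of_exponent_le hKr (by norm_num)
    _ = K := Real.rpow_one _

lemma scale_low (N K C1 TK T3 d e : ℕ) (L L' x s : ℝ) (hK : 1 ≤ K) (hL1 : 1 ≤ L) (hKL : (K : ℝ) ≤ L ^ TK) (hL' : L' ≤ L ^ 2) (hL'0 : 0 ≤ L')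
    (hx0 : 0 ≤ x) (hs0 : 0 ≤ s) (he : e ≤ d) (hxs : x ≤ s * L ^ T3)
    (hx : (N : ℝ) ^ (1 / 3 : ℝ) * L ^ (T3 * d + TK + 2 * C1) ≤ x ^ e) :
    ((N * K : ℕ) : ℝ) ^ (1 / 3 : ℝ) * L' ^ C1 ≤ s ^ e := by
  have hL0 : 0 < L := by linarith
  have h1 : x ^ e ≤ s ^ e * L ^ (T3 * d) := by
    calc x ^ e ≤ (s * L ^ T3) ^ e := pow_le_pow_left₀ hx0 hxs e
      _ = s ^ e * L ^ (T3 * e) := by rw [mul_pow, ← pow_mul]
      _ ≤ _ := by
        apply mul_le_mul_of_nonneg_left _ (by positivity)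
        exact pow_le_pow_right₀ hL1 (Nat.mul_le_mul_left _ he)
  have h2 : (N : ℝ) ^ (1 / 3 : ℝ) * L ^ (TK + 2 * C1) * L ^ (T3 * d) ≤ s ^ e * L ^ (T3 * d) := by
    refine le_trans (le_of_eq ?_) (hx.trans h1)
    rw [mul_assoc, ← pow_add]
    congr 2
    ring
  have h3 := le_of_mul_le_mul_right h2 (by positivity)
  refine le_trans ?_ h3
  calc ((N * K : ℕ) : ℝ) ^ (1 / 3 : ℝ) * L' ^ C1 ≤ ((N : ℝ) ^ (1 / 3 : ℝ) * K) * (L ^ 2) ^ C1 := by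
        apply mul_le_mul (third N K hK) (pow_le_pow_left₀ hL'0 hL' _) (by positivity) (by positivity)
    _ ≤ ((N : ℝ) ^ (1 / 3 : ℝ) * L ^ TK) * (L ^ 2) ^ C1 := by gcongr
    _ = _ := by rw [← pow_mul, pow_add]; ring

lemma window (D M : ℕ) (hD : 1 ≤ D) (hDM : D ≤ M) (x L τ w : ℝ) (T1 T2 : ℕ) (hL : 4 ≤ L) (hML : (M : ℝ) ≤ L ^ T2)
    (hτ : 0 ≤ τ) (hτ2 : τ = 0 ∨ x ≤ τ * L ^ T1) (hw : x ≤ w * L ^ T1) (hw0 : 0 ≤ w) (hτw : τ + w ≤ x) (hx : 8 * L ^ (T1 + T2) ≤ x) :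
    ∃ x1 x2 : ℕ, x1 < x2 ∧ (∀ m : ℕ, x1 < m → (D : ℝ) * τ < M * m) ∧ (∀ m : ℕ, m ≤ x2 → (M : ℝ) * (m + 1) ≤ D * (τ + w)) ∧
      (x1 = 0 ∨ x ≤ x1 * L ^ (T1 + T2 + 1)) ∧ x ≤ x2 * L ^ (T1 + T2 + 1) ∧ (x2 : ℝ) ≤ x ∧
      (x2 : ℝ) ≤ ((x2 : ℝ) - x1) * L ^ (T1 + 1) := by
  have hDr : (1 : ℝ) ≤ D := by exact_mod_cast hD
  have hDMr : (D : ℝ) ≤ M := by exact_mod_cast hDM
  have hM1 : (1 : ℝ) ≤ M := by linarith
  have hM0 : (0 : ℝ) < M := by linarith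
  have hL0 : 0 < L := by linarith
  have hL1 : 1 ≤ L := by linarith
  -- `D w / M ≥ 8`
  obtain ⟨ω, hω⟩ : ∃ ω, ω = (D : ℝ) * w / M := ⟨_, rfl⟩
  obtain ⟨θ, hθ⟩ : ∃ θ, θ = (D : ℝ) * τ / M := ⟨_, rfl⟩
  have hωM : ω * M = D * w := by rw [hω]; field_simp
  have hθM : θ * M = D * τ := by rw [hθ]; field_simp
  have hθ0 : 0 ≤ θ := by rw [hθ]; positivity
  have hω1 : x ≤ ω * L ^ (T1 + T2) := by
    calc x ≤ w * L ^ T1 := hw
      _ ≤ (D * w) * L ^ T1 := by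
        apply mul_le_mul_of_nonneg_right _ (by positivity)
        nlinarith
      _ = ω * M * L ^ T1 := by rw [hωM]
      _ ≤ ω * L ^ T2 * L ^ T1 := by
        have : 0 ≤ ω := by rw [hω]; positivity
        gcongr
      _ = _ := by rw [pow_add]; ring
  have hω8 : 8 ≤ ω := by
    have h1 := hx.trans hω1
    exact le_of_mul_le_mul_right h1 (by positivity)
  have hsum : (θ + ω) * M = D * (τ + w) := by rw [add_mul, hωM, hθM]; ring
  have hsx : θ + ω ≤ x := by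
    have h1 : (θ + ω) * M ≤ x * M := by
      rw [hsum]
      have : 0 ≤ τ + w := by linarith
      nlinarith
    exact le_of_mul_le_mul_right h1 hM0
  have c1 : θ ≤ (⌈θ⌉₊ : ℝ) := Nat.le_ceil _
  have c2 : (⌈θ⌉₊ : ℝ) < θ + 1 := Nat.ceil_lt_add_one hθ0
  have c3 : (⌊θ + ω⌋₊ : ℝ) ≤ θ + ω := Nat.floor_le (by linarith)
  have c4 : θ + ω < (⌊θ + ω⌋₊ : ℝ) + 1 := Nat.lt_floor_add_one _
  have hfl : 1 ≤ ⌊θ + ω⌋₊ := by
    have : (1 : ℝ) ≤ ⌊θ + ω⌋₊ := by linarith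
    exact_mod_cast this
  obtain ⟨x2, hx2⟩ : ∃ x2 : ℕ, x2 + 1 = ⌊θ + ω⌋₊ := ⟨⌊θ + ω⌋₊ - 1, by omega⟩
  have hx2r : (x2 : ℝ) + 1 = ⌊θ + ω⌋₊ := by rw [← hx2]; push_cast; ring
  have hgap : ω / 2 ≤ (x2 : ℝ) - (⌈θ⌉₊ : ℝ) := by linarith
  have hLT : (1 : ℝ) ≤ L ^ (T1 + T2) := one_le_pow₀ hL1
  refine ⟨⌈θ⌉₊, x2, ?_, ?_, ?_, ?_, ?_, ?_, ?_⟩
  · have : (⌈θ⌉₊ : ℝ) < x2 := by linarith
    exact_mod_cast this
  · intro m hm
    have h1 : (⌈θ⌉₊ : ℝ) < m := by exact_mod_cast hm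
    rw [← hθM, mul_comm]
    exact mul_lt_mul_of_pos_left (by linarith) hM0
  · intro m hm
    have h1 : (m : ℝ) ≤ x2 := by exact_mod_cast hm
    rw [← hsum, mul_comm]
    exact mul_le_mul_of_nonneg_right (by linarith) hM0.le
  · rcases hτ2 with h | h
    · left
      have : θ = 0 := by rw [hθ, h, mul_zero, zero_div]
      rw [this, Nat.ceil_zero]
    · right
      calc x ≤ τ * L ^ T1 := h
        _ ≤ (D * τ) * L ^ T1 := by
          apply mul_le_mul_of_nonneg_right _ (by positivity)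
          nlinarith
        _ = θ * M * L ^ T1 := by rw [hθM]
        _ ≤ (⌈θ⌉₊ : ℝ) * L ^ T2 * L ^ T1 := by gcongr
        _ = (⌈θ⌉₊ : ℝ) * L ^ (T1 + T2) := by rw [pow_add]; ring
        _ ≤ _ := by
          apply mul_le_mul_of_nonneg_left _ (Nat.cast_nonneg _)
          exact pow_le_pow_right₀ hL1 (by omega)
  · have h1 : ω / 2 ≤ x2 := by linarith [Nat.cast_nonneg (α := ℝ) ⌈θ⌉₊]
    calc x ≤ ω * L ^ (T1 + T2) := hω1
      _ ≤ (2 * x2) * L ^ (T1 + T2) := by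
        apply mul_le_mul_of_nonneg_right _ (by positivity)
        linarith
      _ = x2 * (L ^ (T1 + T2) * 2) := by ring
      _ ≤ x2 * (L ^ (T1 + T2) * L) := by
        apply mul_le_mul_of_nonneg_left _ (Nat.cast_nonneg _)
        apply mul_le_mul_of_nonneg_left _ (by positivity)
        linarith
      _ = _ := by rw [pow_succ L (T1 + T2)]
  · linarith
  · have h0 : x ≤ w * L ^ T1 := hw
    have h1 : (θ + ω) ≤ ω * L ^ T1 := by
      have h2 : (θ + ω) * M ≤ (ω * L ^ T1) * M := by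
        calc (θ + ω) * M = D * (τ + w) := hsum
          _ ≤ D * (w * L ^ T1) := by
            apply mul_le_mul_of_nonneg_left _ (by linarith)
            linarith
          _ = (D * w) * L ^ T1 := by ring
          _ = (ω * L ^ T1) * M := by rw [← hωM]; ring
      exact le_of_mul_le_mul_right h2 hM0
    have hLT1 : (1 : ℝ) ≤ L ^ T1 := one_le_pow₀ hL1
    calc (x2 : ℝ) ≤ θ + ω := by linarith
      _ ≤ ω * L ^ T1 := h1
      _ = (ω / 2) * (L ^ T1 * 2) := by ring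
      _ ≤ ((x2 : ℝ) - (⌈θ⌉₊ : ℝ)) * (L ^ T1 * L) := by
        apply mul_le_mul hgap _ (by positivity) (by linarith)
        apply mul_le_mul_of_nonneg_left _ (by positivity)
        linarith
      _ = _ := by rw [pow_succ L T1]

open Classical in
/-- **The arithmetic part**: prime values give points on the conics. -/
lemma arith {k r : ℕ} (f : Fin k → ℤ[X]) (a : Fin k → ℤ) (j : Fin r → Fin k) (δ c : Fin r → ℤ) (hδ : ∀ i, δ i ≠ 0) (hc : ∀ i, c i ≠ 0)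
    (S : Finset Nat.Primes) (n E0 : ℕ) (hE : ∀ l, (2 * (f l).natDegree + 1) * n + 3 ≤ E0)
    (h2 : ∀ p : Nat.Primes, (p : ℕ) = 2 → p ∈ S) (hS : ∀ p : Nat.Primes, (∃ i, ((p : ℕ) : ℤ) ∣ δ i ∨ ((p : ℕ) : ℤ) ∣ c i) → p ∈ S)
    (v : (p : Nat.Primes) → ℚ_[(p : ℕ)]) (hv1 : ∀ p ∈ S, ‖v p‖ ≤ ((p : ℕ) : ℝ) ^ n)
    (hv2 : ∀ p ∈ S, ∀ l, (((p : ℕ) : ℝ) ^ n)⁻¹ ≤ ‖PP f a l (v p)‖)
    (hv3 : ∀ p ∈ S, ∀ i, Splits (δ i : ℚ_[((p : Nat.Primes) : ℕ)]) (c i * PP f a (j i) (v p)))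
    (hreal : ∀ i, δ i < 0 → 0 < c i)
    (u : ℤ) (D : ℕ) (hD : D = ∏ p ∈ S, (p : ℕ) ^ n)
    (hu : ∀ p ∈ S, ‖(u : ℚ_[((p : Nat.Primes) : ℕ)]) - D * v p‖ ≤ (((p : ℕ) : ℝ) ^ E0)⁻¹)
    (c0 : Fin k → ℕ) (w : Fin k → ℤ) (hw1 : ∀ l, 1 ≤ w l) (hw : ∀ l, (w l).natAbs.Prime)
    (hc0 : ∀ l, ∀ p : Nat.Primes, (p : ℕ) ∣ c0 l → p ∈ S) (hc00 : ∀ l, c0 l ≠ 0)
    (hval : ∀ l, (GG (f l) D).eval u + (D : ℤ) ^ (2 * (f l).natDegree) * a l = (c0 l : ℤ) * w l) :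
    (∀ l, 0 < PP f a l ((u : ℝ) / D)) ∧ ∀ i, Splits (δ i : ℚ) (c i * PP f a (j i) ((u : ℚ) / D)) := by
  have hD0 : D ≠ 0 := by rw [hD]; exact prod_ne_zero_iff.2 fun p _ => pow_ne_zero _ p.2.ne_zero
  have hDr : (0 : ℝ) < D := by exact_mod_cast Nat.pos_of_ne_zero hD0
  have hpos : ∀ l, 0 < PP f a l ((u : ℝ) / D) := by
    intro l
    have h1 := GG_aeval (f l) D hD0 ((u : ℝ) / D)
    rw [mul_div_cancel₀ _ hDr.ne', aeval_int] at h1
    have h3 : (D : ℝ) ^ (2 * (f l).natDegree) * PP f a l ((u : ℝ) / D) = (c0 l : ℝ) * w l := by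
      unfold PP
      rw [mul_add, ← h1]
      have h4 := congrArg (fun z : ℤ => (z : ℝ)) (hval l)
      push_cast at h4
      exact h4
    have h5 : (0 : ℝ) < (c0 l : ℝ) * w l := by
      have h6 : (0 : ℝ) < c0 l := by exact_mod_cast Nat.pos_of_ne_zero (hc00 l)
      have h7 : (0 : ℝ) < w l := by exact_mod_cast (by have := hw1 l; omega : (0 : ℤ) < w l)
      positivity
    rw [← h3] at h5
    exact (pos_iff_pos_of_mul_pos h5).1 (by positivity)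
  have hV : ∀ l, (c0 l : ℤ) * w l ≠ 0 := fun l => mul_ne_zero (by exact_mod_cast hc00 l) (by have := hw1 l; omega)
  have hsq : ∀ p ∈ S, ∀ l, ∃ σ : ℚ_[((p : Nat.Primes) : ℕ)], σ ≠ 0 ∧ (((c0 l : ℤ) * w l : ℤ) : ℚ_[(p : ℕ)]) = PP f a l (v p) * σ ^ 2 := by
    intro p hp l
    exact val_sq (f l) S n E0 (hE l) (a l) p hp (v p) (hv1 p hp) (hv2 p hp l) u D hD (hu p hp) _ (hval l)
  refine ⟨hpos, ?_⟩
  have hmain := core2 f S n E0 hE δ c hδ hc (fun i => {j i}) h2 hS a v hv1 hv2 (by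
      intro p hp i
      rw [prod_singleton]
      exact hv3 p hp i) ((u : ℝ) / D) (by
      intro i l hl
      rw [mem_singleton] at hl
      rw [hl]
      have h1 := row_even (δ i) (c i) (hδ i) (hc i) {j i} (fun l => (c0 l : ℤ) * w l) (fun l _ => hV l) S h2
        (fun p hp => hS p ⟨i, Or.inl hp⟩) (fun p hp => hS p ⟨i, Or.inr hp⟩) (by
          intro p hp
          rw [prod_singleton]
          obtain ⟨σ, hσ, hσ2⟩ := hsq p hp (j i)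
          rw [Int.cast_mul, hσ2, ← mul_assoc]
          exact (splits_mul_sq' hσ).2 (hv3 p hp i)) (fun _ => (1 : ℝ)) (fun _ _ => one_ne_zero) (by
          intro h
          rw [prod_const_one, mul_one]
          exact_mod_cast hreal i h)
      rw [sum_singleton, if_neg (by rintro ⟨-, h⟩; linarith), add_zero] at h1
      rw [if_neg (by rintro ⟨-, h⟩; linarith [hpos (j i)]), add_zero]
      have h3 : S.filter (fun p : Nat.Primes => ¬ Splits (δ i : ℚ_[(p : ℕ)]) (PP f a (j i) (v p))) =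
          S.filter (fun p : Nat.Primes => ¬ Splits (δ i : ℚ_[(p : ℕ)]) (((c0 (j i) : ℤ) * w (j i) : ℤ) : ℚ_[(p : ℕ)])) := by
        apply filter_congr
        intro p hp
        obtain ⟨σ, hσ, hσ2⟩ := hsq p hp (j i)
        rw [hσ2, splits_mul_sq' hσ]
      rw [h3]
      exact h1) (by
      intro i h
      rw [prod_singleton]
      have h1 : (0 : ℝ) < c i := by exact_mod_cast hreal i h
      exact mul_pos h1 (hpos (j i))) u D hD hu c0 w hw hc0 hc00 hval (fun l => mul_pos (hpos l) (hpos l))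
  intro i
  have h1 := hmain i
  rw [prod_singleton] at h1
  exact h1

end Pool.Agent.Run7.h18.WA
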