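import Mathlib
import Pool.Agent.Run7.h18.WA.W3

/-! The point of the base line, for almost all constant terms and all data at once. -/

set_option autoImplicit false

namespace Pool.Agent.Run7.h18.WA

open Finset Filter Polynomial
open Pool.Agent.W313.BMX (Splits splits_swap splits_comm splits_mul_sq)
open Pool.Agent.TH204.HP
open Pool.Agent.Y714.RC (PP no_fixed)
open Pool.Agent.Run7.h18.MK (ev rpow_third_ge union_bd' small_coord)

/-- **The point of the base line.** -/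
theorem base_pt (k d T U : ℕ) (hk : 1 ≤ k) (hd : 1 ≤ d) : ∃ C N₀ : ℕ, ∀ N : ℕ, N₀ ≤ N →
    ∃ Ex : Finset (Fin k → ℕ), (Ex.card : ℝ) ≤ (N : ℝ) ^ k / Real.log N ^ U ∧
    ∀ a ∈ Fintype.piFinset (fun _ : Fin k => Icc 1 N), a ∉ Ex → (∀ l, (N : ℝ) / Real.log N ^ (U + 2) < a l) ∧
    ∀ f : Fin k → ℤ[X], (∀ l, 1 ≤ (f l).natDegree ∧ (f l).natDegree ≤ d ∧ ∀ j, |(((f l).coeff j : ℤ) : ℝ)| ≤ Real.log N ^ T) →
    ∀ (r : ℕ) (j : Fin r → Fin k) (δ c : Fin r → ℤ), (∀ i, δ i ≠ 0) → (∀ i, c i ≠ 0) → (∀ i, δ i < 0 → 0 < c i) →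
    ∀ (S : Finset Nat.Primes) (n : ℕ), 1 ≤ n → (∀ p : Nat.Primes, (p : ℕ) = 2 → p ∈ S) →
      (∀ p : Nat.Primes, (∃ i, ((p : ℕ) : ℤ) ∣ δ i ∨ ((p : ℕ) : ℤ) ∣ c i) → p ∈ S) →
      (∀ p : Nat.Primes, (p : ℕ) ≤ ∑ l, (f l).natDegree → p ∈ S) →
      (∀ p : Nat.Primes, (∃ l, ((p : ℕ) : ℤ) ∣ (f l).leadingCoeff) → p ∈ S) →
      ((∏ p ∈ S, (p : ℕ) ^ n : ℕ) : ℝ) ≤ Real.log N ^ T →
    ∀ v : (p : Nat.Primes) → ℚ_[(p : ℕ)], (∀ p ∈ S, ‖v p‖ ≤ ((p : ℕ) : ℝ) ^ n) →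
      (∀ p ∈ S, ∀ l, (((p : ℕ) : ℝ) ^ n)⁻¹ ≤ ‖PP f (fun l => (a l : ℤ)) l (v p)‖) →
      (∀ p ∈ S, ∀ i, Splits (δ i : ℚ_[((p : Nat.Primes) : ℕ)]) (c i * PP f (fun l => (a l : ℤ)) (j i) (v p))) →
    ∀ x : ℕ, (∀ l, (N : ℝ) ^ (1 / 3 : ℝ) * Real.log N ^ C ≤ (x : ℝ) ^ (f l).natDegree ∧
      (x : ℝ) ^ (f l).natDegree * Real.log N ^ C ≤ N) →
    ∀ τ w : ℝ, 0 ≤ τ → 0 ≤ w → (τ = 0 ∨ (x : ℝ) ≤ τ * Real.log N ^ (T + 1)) → (x : ℝ) ≤ w * Real.log N ^ (T + 1) → τ + w ≤ x →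
    ∃ q : ℚ, τ < q ∧ (q : ℝ) ≤ τ + w ∧ (∀ p ∈ S, ‖((q : ℚ) : ℚ_[((p : Nat.Primes) : ℕ)]) - v p‖ ≤ (((p : ℕ) : ℝ) ^ n)⁻¹) ∧
      (q.den : ℝ) ≤ Real.log N ^ T ∧ (∀ l, 0 < PP f (fun l => (a l : ℤ)) l (q : ℝ)) ∧
      ∀ i, Splits (δ i : ℚ) (c i * PP f (fun l => (a l : ℤ)) (j i) q) := by
  classical
  obtain ⟨T2, hT2⟩ : ∃ T2, T2 = (2 * d + 5) * T := ⟨_, rfl⟩
  obtain ⟨T1, hT1⟩ : ∃ T1, T1 = T + 2 * d * T + T2 * d + 2 := ⟨_, rfl⟩
  obtain ⟨TK, hTK⟩ : ∃ TK, TK = 2 * d * T + 2 := ⟨_, rfl⟩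
  obtain ⟨U', hU'⟩ : ∃ U', U' = (U + 2) + (3 * T1 + 1) * k + TK * k := ⟨_, rfl⟩
  obtain ⟨C1, N₁, hwin⟩ := sys_window k d T1 U' (T + 1 + 1) hk hd
  obtain ⟨C, hC⟩ : ∃ C, C = ((T + 1) + T2 + 1) * d + TK + 2 * C1 := ⟨_, rfl⟩
  obtain ⟨N₂, hev⟩ := ev (3 * (((T + 1) + T2 + 1) * d) + T1 + (U + 2) + TK + 1) (8 + d + 2 ^ d + k)
  refine ⟨C, N₁ + N₂ + 3, fun N hN => ?_⟩
  obtain ⟨hLK, hLN⟩ := hev N (by omega)
  obtain ⟨L, hL⟩ : ∃ L, L = Real.log (N : ℝ) := ⟨_, rfl⟩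
  rw [← hL] at hLK hLN
  have hN0 : (0 : ℝ) < N := by exact_mod_cast (by omega : 0 < N)
  have q1 : (0 : ℝ) ≤ (2 : ℝ) ^ d := by positivity
  have q2 : (0 : ℝ) ≤ (d : ℝ) := Nat.cast_nonneg _
  have q3 : (0 : ℝ) ≤ (k : ℝ) := Nat.cast_nonneg _
  have hL8 : 8 ≤ L := by linarith
  have hL1 : 1 ≤ L := by linarith
  have hL0 : 0 < L := by linarith
  have hpw : ∀ m : ℕ, m ≤ 3 * (((T + 1) + T2 + 1) * d) + T1 + (U + 2) + TK + 1 → L ^ m ≤ N := fun m hm =>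
    (pow_le_pow_right₀ hL1 hm).trans hLN
  -- the larger box
  obtain ⟨K, hK⟩ : ∃ K : ℕ, K = ⌈L ^ (2 * d * T)⌉₊ + 1 := ⟨_, rfl⟩
  have hK1 : 1 ≤ K := by rw [hK]; omega
  have hKr1 : (1 : ℝ) ≤ K := by exact_mod_cast hK1
  have hKlow : L ^ (2 * d * T) + 1 ≤ K := by
    rw [hK]
    push_cast
    linarith [Nat.le_ceil (L ^ (2 * d * T))]
  have hKup : (K : ℝ) ≤ L ^ TK := by
    have h1 : (⌈L ^ (2 * d * T)⌉₊ : ℝ) < L ^ (2 * d * T) + 1 := Nat.ceil_lt_add_one (by positivity)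
    have h2 : 1 ≤ L ^ (2 * d * T) := one_le_pow₀ hL1
    rw [hK, hTK, pow_add]
    push_cast
    have h3 : 3 ≤ L ^ 2 := by nlinarith
    nlinarith
  have hKN : (K : ℝ) ≤ N := hKup.trans (hpw TK (by omega))
  obtain ⟨L', hL'⟩ : ∃ L', L' = Real.log ((N * K : ℕ) : ℝ) := ⟨_, rfl⟩
  have hLL' : L ≤ L' := by
    rw [hL, hL']
    apply Real.log_le_log hN0
    push_cast
    nlinarith
  have hL'2 : L' ≤ L ^ 2 := by
    have h1 : L' ≤ 2 * L := by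
      rw [hL', Nat.cast_mul, Real.log_mul hN0.ne' (by positivity), ← hL]
      have := Real.log_le_log (by linarith) hKN
      rw [← hL] at this
      linarith
    nlinarith
  have hL'0 : 0 < L' := by linarith
  obtain ⟨Ex', hEx1, hEx2⟩ := hwin (N * K) (by nlinarith)
  rw [← hL'] at hEx1 hEx2
  -- the exceptional sets
  obtain ⟨R, hR⟩ : ∃ R : ℕ, R = ⌊L ^ T1⌋₊ := ⟨_, rfl⟩
  have hRr : (R : ℝ) ≤ L ^ T1 := by rw [hR]; exact Nat.floor_le (by positivity)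
  have hR1 : 1 ≤ R := by
    rw [hR]
    exact Nat.le_floor (by rw [Nat.cast_one]; exact one_le_pow₀ hL1)
  have hRle : ∀ y : ℕ, (y : ℝ) ≤ L ^ T1 → y ≤ R := fun y hy => by rw [hR]; exact Nat.le_floor hy
  obtain ⟨Sb, hSb⟩ : ∃ Sb : Finset (Fin k → ℕ), Sb = Fintype.piFinset (fun _ : Fin k => Icc 1 N) := ⟨_, rfl⟩
  obtain ⟨Ex1, hX1, hX2⟩ := exc_set k R hR1 Sb Ex'
  obtain ⟨S0, hS0⟩ : ∃ S0 : Finset (Fin k → ℕ), S0 = (univ : Finset (Fin k)).biUnion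
    (fun i => Sb.filter (fun a => a i ≤ ⌊(N : ℝ) / L ^ (U + 2)⌋₊)) := ⟨_, rfl⟩
  have hNk : (N : ℝ) * (N : ℝ) ^ (k - 1) = (N : ℝ) ^ k := by
    rw [← pow_succ']
    congr 1
    omega
  have hS0c : (S0.card : ℝ) ≤ k * ((N : ℝ) ^ k / L ^ (U + 2)) := by
    rw [hS0]
    refine (union_bd' univ _ ((N : ℝ) ^ k / L ^ (U + 2)) (fun i _ => ?_)).trans (by rw [card_univ, Fintype.card_fin])
    rw [hSb]
    refine (small_coord k N _ i).trans ?_
    calc (⌊(N : ℝ) / L ^ (U + 2)⌋₊ : ℝ) * (N : ℝ) ^ (k - 1) ≤ (N : ℝ) / L ^ (U + 2) * (N : ℝ) ^ (k - 1) := by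
          apply mul_le_mul_of_nonneg_right (Nat.floor_le (by positivity)) (by positivity)
      _ = _ := by
        rw [← hNk]
        ring
  have hEx1c : (Ex1.card : ℝ) ≤ (N : ℝ) ^ k / L ^ (U + 2) := by
    have h1 : (Ex1.card : ℝ) ≤ (3 * (R : ℝ) ^ 3) ^ k * Ex'.card := by exact_mod_cast hX1
    have h2 : (3 * (R : ℝ) ^ 3) ^ k ≤ L ^ ((3 * T1 + 1) * k) := by
      rw [pow_mul]
      apply pow_le_pow_left₀ (by positivity)
      calc 3 * (R : ℝ) ^ 3 ≤ L * (L ^ T1) ^ 3 := by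
            apply mul_le_mul (by linarith) (pow_le_pow_left₀ (Nat.cast_nonneg _) hRr 3) (by positivity) hL0.le
        _ = L ^ (3 * T1 + 1) := by rw [← pow_mul, ← pow_succ']; congr 1; ring
    have h3 : (Ex'.card : ℝ) ≤ (N : ℝ) ^ k * L ^ (TK * k) / L ^ U' := by
      refine hEx1.trans ?_
      rw [Nat.cast_mul, mul_pow]
      apply div_le_div₀ (by positivity) _ (by positivity) (pow_le_pow_left₀ hL0.le hLL' _)
      apply mul_le_mul_of_nonneg_left _ (by positivity)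
      rw [pow_mul]
      exact pow_le_pow_left₀ (Nat.cast_nonneg _) hKup k
    calc (Ex1.card : ℝ) ≤ (3 * (R : ℝ) ^ 3) ^ k * Ex'.card := h1
      _ ≤ L ^ ((3 * T1 + 1) * k) * ((N : ℝ) ^ k * L ^ (TK * k) / L ^ U') := mul_le_mul h2 h3 (Nat.cast_nonneg _) (by positivity)
      _ = _ := by
        rw [hU', pow_add, pow_add]
        field_simp
  refine ⟨S0 ∪ Ex1, ?_, fun a ha haE => ?_⟩
  · have h1 : ((S0 ∪ Ex1).card : ℝ) ≤ S0.card + Ex1.card := by exact_mod_cast card_union_le S0 Ex1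
    have h7 : (k + 1) * ((N : ℝ) ^ k / L ^ (U + 2)) ≤ (N : ℝ) ^ k / L ^ U := by
      rw [← mul_div_assoc, div_le_div_iff₀ (by positivity) (by positivity), pow_add]
      have a2 : (k : ℝ) + 1 ≤ L ^ 2 := by nlinarith
      calc ((k : ℝ) + 1) * (N : ℝ) ^ k * L ^ U = ((N : ℝ) ^ k * L ^ U) * (k + 1) := by ring
        _ ≤ ((N : ℝ) ^ k * L ^ U) * L ^ 2 := mul_le_mul_of_nonneg_left a2 (by positivity)
        _ = _ := by ring
    rw [← hL]
    linarith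
  rw [mem_union, not_or] at haE
  obtain ⟨haS0, haX⟩ := haE
  rw [← hL]
  have haSb : a ∈ Sb := by rw [hSb]; exact ha
  have ha1 := ha
  rw [Fintype.mem_piFinset] at ha1
  have hal : ∀ l, (N : ℝ) / L ^ (U + 2) < a l := by
    intro l
    by_contra hcon
    push Not at hcon
    apply haS0
    rw [hS0, mem_biUnion]
    exact ⟨l, mem_univ l, mem_filter.2 ⟨haSb, Nat.le_floor hcon⟩⟩
  refine ⟨hal, fun f hf r j δ c hδ hc hreal S n hn h2S hS1 hS2 hS3 hDT v hv1 hv2 hv3 x hx τ w hτ hw0 hτ2 hw hτw => ?_⟩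
  obtain ⟨E0, hE0⟩ : ∃ E0, E0 = (2 * d + 2) * n + 3 := ⟨_, rfl⟩
  have hE0l : ∀ l, (2 * (f l).natDegree + 1) * n + 3 ≤ E0 := by
    intro l
    rw [hE0]
    have h1 := (hf l).2.1
    have h2 : (2 * (f l).natDegree + 1) * n ≤ (2 * d + 2) * n := Nat.mul_le_mul_right _ (by omega)
    omega
  obtain ⟨D, hD⟩ : ∃ D, D = ∏ p ∈ S, (p : ℕ) ^ n := ⟨_, rfl⟩
  obtain ⟨M, hM⟩ : ∃ M, M = ∏ p ∈ S, (p : ℕ) ^ E0 := ⟨_, rfl⟩
  have hD0 : D ≠ 0 := by rw [hD]; exact prod_ne_zero_iff.2 fun p _ => pow_ne_zero _ p.2.ne_zero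
  have hM0 : M ≠ 0 := by rw [hM]; exact prod_ne_zero_iff.2 fun p _ => pow_ne_zero _ p.2.ne_zero
  have hD1 : 1 ≤ D := Nat.pos_of_ne_zero hD0
  have hM1 : 1 ≤ M := Nat.pos_of_ne_zero hM0
  have hDM : D ≤ M := by
    rw [hD, hM]
    apply prod_le_prod' fun p _ => ?_
    apply Nat.pow_le_pow_right p.2.pos
    rw [hE0]
    nlinarith
  rw [← hD] at hDT
  have hMT : (M : ℝ) ≤ L ^ T2 := by
    have h1 : M ≤ D ^ (2 * d + 5) := by
      rw [hM, hD, ← prod_pow]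
      apply prod_le_prod' fun p _ => ?_
      rw [← pow_mul]
      apply Nat.pow_le_pow_right p.2.pos
      rw [hE0]
      nlinarith
    calc (M : ℝ) ≤ (D : ℝ) ^ (2 * d + 5) := by exact_mod_cast h1
      _ ≤ (L ^ T) ^ (2 * d + 5) := pow_le_pow_left₀ (Nat.cast_nonneg _) hDT _
      _ = _ := by rw [← pow_mul, hT2, mul_comm]
  have hDr : (1 : ℝ) ≤ D := by exact_mod_cast hD1
  have hMr : (1 : ℝ) ≤ M := by exact_mod_cast hM1
  have hGd : ∀ l, (GG (f l) D).natDegree = (f l).natDegree := fun l => GG_natDegree (f l) D hD0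
  obtain ⟨u0, hu0M, hu0⟩ := exists_u0 S n E0 D M v hv1 hD hM
  -- the heights
  have hheight : (d + 1 : ℝ) * (L ^ T * (D : ℝ) ^ (2 * d) * (2 * M) ^ d) ≤ L ^ T1 := by
    calc (d + 1 : ℝ) * (L ^ T * (D : ℝ) ^ (2 * d) * (2 * M) ^ d) ≤ L * (L ^ T * (L ^ T) ^ (2 * d) * (L * (L ^ T2) ^ d)) := by
          have h1 : (d + 1 : ℝ) ≤ L := by linarith
          have h2 : (D : ℝ) ^ (2 * d) ≤ (L ^ T) ^ (2 * d) := pow_le_pow_left₀ (Nat.cast_nonneg _) hDT _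
          have h3 : (2 * (M : ℝ)) ^ d ≤ L * (L ^ T2) ^ d := by
            rw [mul_pow]
            exact mul_le_mul (by linarith) (pow_le_pow_left₀ (Nat.cast_nonneg _) hMT d) (by positivity) hL0.le
          gcongr
      _ = L ^ T1 := by
          rw [← pow_mul, ← pow_mul, ← pow_add, ← pow_succ', ← pow_add, ← pow_succ', hT1]
          congr 1
          ring
  obtain ⟨e0, he0⟩ : ∃ e0 : Fin k → ℕ, e0 = fun l => D ^ (2 * (f l).natDegree) := ⟨_, rfl⟩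
  obtain ⟨v0, hv0⟩ : ∃ v0 : Fin k → ℤ, v0 = fun l => (GG (f l) D).eval (u0 : ℤ) := ⟨_, rfl⟩
  obtain ⟨V0, hV0⟩ : ∃ V0 : Fin k → ℤ, V0 = fun l => v0 l + (e0 l : ℤ) * (a l : ℤ) := ⟨_, rfl⟩
  have hV0l : ∀ l, V0 l = (GG (f l) D).eval (u0 : ℤ) + (D : ℤ) ^ (2 * (f l).natDegree) * (a l : ℤ) := by
    intro l
    rw [hV0, hv0, he0]
    push_cast
    rfl
  have hv0r : ∀ l, |((v0 l : ℤ) : ℝ)| ≤ L ^ T1 := by
    intro l
    rw [hv0]
    exact (GG_eval_le (f l) D M d u0 hu0M hD1 (hf l).2.1 (hGd l) (L ^ T) (hf l).2.2).trans hheight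
  have he0r : ∀ l, (e0 l : ℝ) ≤ L ^ (2 * d * T) := by
    intro l
    rw [he0]
    push_cast
    calc (D : ℝ) ^ (2 * (f l).natDegree) ≤ (D : ℝ) ^ (2 * d) := pow_le_pow_right₀ hDr (by have := (hf l).2.1; omega)
      _ ≤ (L ^ T) ^ (2 * d) := pow_le_pow_left₀ (Nat.cast_nonneg _) hDT _
      _ = _ := by rw [← pow_mul, mul_comm]
  have he01 : ∀ l, 1 ≤ e0 l := fun l => by rw [he0]; exact Nat.one_le_pow _ _ hD1
  -- positivity
  have hV0pos : ∀ l, 0 < V0 l := by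
    intro l
    have h1 : L ^ T1 < a l := by
      refine lt_of_le_of_lt ?_ (hal l)
      rw [le_div_iff₀ (by positivity), ← pow_add]
      exact hpw _ (by omega)
    have h2 : (a l : ℝ) ≤ (e0 l : ℝ) * a l := le_mul_of_one_le_left (Nat.cast_nonneg _) (by exact_mod_cast he01 l)
    have h3 : (0 : ℝ) < ((V0 l : ℤ) : ℝ) := by
      rw [hV0]
      push_cast
      have := (abs_le.1 (hv0r l)).1
      linarith
    exact_mod_cast h3
  obtain ⟨c0, hc0⟩ : ∃ c0 : Fin k → ℕ, c0 = fun l => Nat.gcd (V0 l).natAbs M := ⟨_, rfl⟩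
  have hc0l : ∀ l, c0 l = Nat.gcd (V0 l).natAbs M := fun l => by rw [hc0]
  have hc0M : ∀ l, c0 l ∣ M := fun l => by rw [hc0l]; exact Nat.gcd_dvd_right _ _
  have hc0v : ∀ l, (c0 l : ℤ) ∣ V0 l := fun l => by rw [hc0l]; exact Int.natCast_dvd.2 (Nat.gcd_dvd_left _ _)
  have hc00 : ∀ l, c0 l ≠ 0 := fun l => by
    rw [hc0l]
    exact (Nat.gcd_pos_of_pos_right _ hM1).ne'
  have hc01 : ∀ l, 1 ≤ c0 l := fun l => Nat.pos_of_ne_zero (hc00 l)
  have hT21 : T2 ≤ T1 := by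
    rw [hT1]
    have : T2 ≤ T2 * d := Nat.le_mul_of_pos_right _ hd
    omega
  have hc0R : ∀ l, c0 l ≤ R := by
    intro l
    apply hRle
    calc (c0 l : ℝ) ≤ M := by exact_mod_cast Nat.le_of_dvd hM1 (hc0M l)
      _ ≤ L ^ T2 := hMT
      _ ≤ _ := pow_le_pow_right₀ hL1 hT21
  have he0R : ∀ l, e0 l ≤ R := by
    intro l
    apply hRle
    exact (he0r l).trans (pow_le_pow_right₀ hL1 (by rw [hT1]; omega))
  have hv0R : ∀ l, |v0 l| ≤ R := by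
    intro l
    have h1 : (v0 l).natAbs ≤ R := by
      apply hRle
      rw [Nat.cast_natAbs, Int.cast_abs]
      exact hv0r l
    rw [← Int.natCast_natAbs]
    exact_mod_cast h1
  have hc0pos : ∀ l, (0 : ℤ) < c0 l := fun l => by exact_mod_cast hc01 l
  -- the new constants
  obtain ⟨κ, hκ⟩ : ∃ κ : Fin k → ℤ, κ = fun l => V0 l / (c0 l : ℤ) := ⟨_, rfl⟩
  have hκc : ∀ l, (c0 l : ℤ) * κ l = V0 l := fun l => by
    rw [hκ]
    exact Int.mul_ediv_cancel' (hc0v l)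
  have hκ1 : ∀ l, 1 ≤ κ l := by
    intro l
    have h1 : 0 < (c0 l : ℤ) * κ l := by rw [hκc]; exact hV0pos l
    have := (pos_iff_pos_of_mul_pos h1).1 (hc0pos l)
    omega
  obtain ⟨b, hb⟩ : ∃ b : Fin k → ℕ, b = fun l => ((v0 l + (e0 l : ℤ) * (a l : ℤ)) / (c0 l : ℤ)).toNat := ⟨_, rfl⟩
  have hbκ : ∀ l, ((b l : ℕ) : ℤ) = κ l := by
    intro l
    have h1 : b l = (κ l).toNat := by rw [hb, hκ, hV0]
    rw [h1, Int.toNat_of_nonneg (by have := hκ1 l; omega)]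
  have hbEx : b ∉ Ex' := by
    rw [hb]
    apply hX2 a haSb haX c0 e0 v0 (fun l => ⟨hc01 l, hc0R l⟩) (fun l => ⟨he01 l, he0R l⟩) hv0R
    · intro l
      have := hc0v l
      rw [hV0] at this
      exact this
    · intro l
      have := hV0pos l
      rw [hV0] at this
      exact this.le
  have hbbox : b ∈ Fintype.piFinset (fun _ : Fin k => Icc 1 (N * K)) := by
    rw [Fintype.mem_piFinset]
    intro l
    rw [mem_Icc]
    constructor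
    · have h1 := hκ1 l
      rw [← hbκ l] at h1
      exact_mod_cast h1
    · have h1 : ((b l : ℕ) : ℝ) ≤ ((N * K : ℕ) : ℝ) := by
        have h2 : ((b l : ℕ) : ℝ) ≤ ((V0 l : ℤ) : ℝ) := by
          have h3 : ((b l : ℕ) : ℤ) ≤ V0 l := by
            rw [hbκ l, ← hκc l]
            exact le_mul_of_one_le_left (by have := hκ1 l; omega) (by have := hc0pos l; omega)
          exact_mod_cast h3
        refine h2.trans ?_
        have h3 : (a l : ℝ) ≤ N := by exact_mod_cast (mem_Icc.1 (ha1 l)).2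
        rw [hV0]
        push_cast
        calc ((v0 l : ℤ) : ℝ) + (e0 l : ℝ) * a l ≤ L ^ T1 + L ^ (2 * d * T) * N := by
              have h4 := (abs_le.1 (hv0r l)).2
              have h5 := he0r l
              have : (e0 l : ℝ) * a l ≤ L ^ (2 * d * T) * N := mul_le_mul h5 h3 (Nat.cast_nonneg _) (by positivity)
              linarith
          _ ≤ N + L ^ (2 * d * T) * N := by
              have := hpw T1 (by omega)
              linarith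
          _ = N * (L ^ (2 * d * T) + 1) := by ring
          _ ≤ N * K := mul_le_mul_of_nonneg_left hKlow hN0.le
      exact_mod_cast h1
  -- the polynomials
  have hF : ∀ l, ∃ F : ℤ[X], F.natDegree = (f l).natDegree ∧
      (c0 l : ℤ) * F.leadingCoeff = (GG (f l) D).leadingCoeff * (M : ℤ) ^ (f l).natDegree ∧
      (∀ x : ℤ, (c0 l : ℤ) * F.eval x = (GG (f l) D).eval ((u0 : ℤ) + M * x) - (GG (f l) D).eval (u0 : ℤ)) ∧
      (∀ (x : ℤ) (p : ℕ), c0 l * p ∣ M → (p : ℤ) ∣ F.eval x) := by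
    intro l
    obtain ⟨F, h1, h2, h3, h4⟩ := exists_F (GG (f l) D) (by rw [hGd]; exact (hf l).1) M hM0 (u0 : ℤ) (c0 l) (hc0M l)
    rw [hGd] at h1 h2
    exact ⟨F, h1, h2, h3, h4⟩
  choose F hF1 hF2 hF3 hF4 using hF
  have hFh : ∀ l, 1 ≤ (F l).natDegree ∧ (F l).natDegree ≤ d ∧ ∀ j, |(((F l).coeff j : ℤ) : ℝ)| ≤ L' ^ T1 := by
    intro l
    rw [hF1]
    refine ⟨(hf l).1, (hf l).2.1, fun j => ?_⟩
    refine ((F_coeff (f l) (F l) D M d (c0 l) u0 hu0M hD1 (hf l).2.1 (hGd l) (hc01 l) (hF3 l) (L ^ T) (hf l).2.2 j).trans hheight).trans ?_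
    exact pow_le_pow_left₀ hL0.le hLL' _
  -- no fixed divisor
  have hnf : ∀ p : ℕ, p.Prime → ∃ m : ℤ, ∀ l, ¬ (p : ℤ) ∣ (b l : ℤ) + (F l).eval m := by
    intro p hp
    by_cases hpT : (⟨p, hp⟩ : Nat.Primes) ∈ S
    · refine ⟨0, fun l => ?_⟩
      have h1 := val_near (f l) S n E0 (hE0l l) (a l : ℤ) v ⟨p, hp⟩ hpT (hv2 _ hpT l) (hv1 _ hpT) (u0 : ℤ) D hD (by
        have := hu0 0 ⟨p, hp⟩ hpT
        simpa using this)
      rw [← hV0l] at h1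
      obtain ⟨m, hm, -⟩ := prod_split S E0 ⟨p, hp⟩ hpT
      obtain ⟨h2, h3⟩ := gcd_facts (V0 l) M p E0 m hp (by rw [hM]; exact hm) hM0 h1
      rw [← hc0l] at h2 h3
      have h4 := hF4 l 0 p h2
      intro h5
      apply h3
      rw [add_comm] at h5
      have h6 := (Int.dvd_add_right h4).1 h5
      rw [hbκ, hκ] at h6
      exact h6
    · obtain ⟨m, hm⟩ := no_fixed F κ (fun l => by rw [hF1]; exact (hf l).1) p hp (by
        have e : ∑ l, (F l).natDegree = ∑ l, (f l).natDegree := sum_congr rfl fun l _ => hF1 l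
        rw [e]
        by_contra h
        exact hpT (hS2 ⟨p, hp⟩ (not_lt.1 h))) (by
        intro l hdiv
        have h1 : (p : ℤ) ∣ (GG (f l) D).leadingCoeff * (M : ℤ) ^ (f l).natDegree := by
          rw [← hF2 l]
          exact hdiv.mul_left _
        rw [GG_lead] at h1
        have hpp := Nat.prime_iff_prime_int.1 hp
        have hpD : ¬ (p : ℤ) ∣ (D : ℤ) := by
          intro h2
          have h3 : p ∣ ∏ q ∈ S, (q : ℕ) ^ n := by rw [← hD]; exact_mod_cast h2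
          exact hpT (mem_of_dvd_prod S n ⟨p, hp⟩ h3)
        have hpM : ¬ (p : ℤ) ∣ (M : ℤ) := by
          intro h2
          have h3 : p ∣ ∏ q ∈ S, (q : ℕ) ^ E0 := by rw [← hM]; exact_mod_cast h2
          exact hpT (mem_of_dvd_prod S E0 ⟨p, hp⟩ h3)
        rcases hpp.dvd_or_dvd h1 with h2 | h2
        · rcases hpp.dvd_or_dvd h2 with h3 | h3
          · exact hpD (hpp.dvd_of_dvd_pow h3)
          · exact hpT (hS3 ⟨p, hp⟩ ⟨l, h3⟩)
        · exact hpM (hpp.dvd_of_dvd_pow h2))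
      refine ⟨m, fun l => ?_⟩
      rw [hbκ, add_comm]
      exact hm l
  -- the window
  have hx0 : (0 : ℝ) ≤ x := Nat.cast_nonneg _
  have hxL : L ^ ((T + 1) + T2 + 1) ≤ x := by
    by_contra hcon
    push Not at hcon
    obtain ⟨h3, h4, -⟩ := hf ⟨0, hk⟩
    have h1 : (x : ℝ) ^ (f ⟨0, hk⟩).natDegree < N ^ (1 / 3 : ℝ) := by
      calc (x : ℝ) ^ (f ⟨0, hk⟩).natDegree < (L ^ ((T + 1) + T2 + 1)) ^ (f ⟨0, hk⟩).natDegree := pow_lt_pow_left₀ hcon hx0 (by omega)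
        _ ≤ (L ^ ((T + 1) + T2 + 1)) ^ d := pow_le_pow_right₀ (one_le_pow₀ hL1) h4
        _ = L ^ (((T + 1) + T2 + 1) * d) := by rw [← pow_mul]
        _ ≤ _ := rpow_third_ge (by positivity) (by
          rw [← pow_mul]
          exact hpw _ (by rw [mul_comm (((T + 1) + T2 + 1) * d) 3]; omega))
    have h5 := (hx ⟨0, hk⟩).1
    have h6 : (N : ℝ) ^ (1 / 3 : ℝ) ≤ (N : ℝ) ^ (1 / 3 : ℝ) * L ^ C := le_mul_of_one_le_right (by positivity) (one_le_pow₀ hL1)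
    linarith
  obtain ⟨x1, x2, w1, w2, w3, w4, w5, w6, w7⟩ := window D M hD1 hDM (x : ℝ) L τ w (T + 1) T2 (by linarith) hMT hτ
    hτ2 hw hw0 hτw (by
      calc 8 * L ^ (T + 1 + T2) ≤ L * L ^ (T + 1 + T2) := mul_le_mul_of_nonneg_right hL8 (by positivity)
        _ = L ^ (T + 1 + T2 + 1) := by rw [pow_succ', ]
        _ ≤ x := hxL)
  have hlow : ∀ s : ℝ, 0 ≤ s → (x : ℝ) ≤ s * L ^ (T + 1 + T2 + 1) → ∀ l, ((N * K : ℕ) : ℝ) ^ (1 / 3 : ℝ) * L' ^ C1 ≤ s ^ (F l).natDegree := by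
    intro s hs0 hs l
    rw [hF1]
    apply scale_low N K C1 TK (T + 1 + T2 + 1) d (f l).natDegree L L' x s hK1 hL1 hKup hL'2 hL'0.le hx0 hs0 (hf l).2.1 hs
    have := (hx l).1
    rw [hC] at this
    exact this
  obtain ⟨m, hm1, hm2, hm3⟩ := hEx2 b hbbox hbEx F hFh hnf x1 x2 w1 (by
      rcases w4 with h | h
      · exact Or.inl h
      · exact Or.inr fun l => hlow x1 (Nat.cast_nonneg _) h l) (by
      intro l
      refine ⟨hlow x2 (Nat.cast_nonneg _) w5 l, ?_⟩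
      rw [hF1]
      calc (x2 : ℝ) ^ (f l).natDegree * L' ^ C1 ≤ (x : ℝ) ^ (f l).natDegree * (L ^ 2) ^ C1 :=
            mul_le_mul (pow_le_pow_left₀ (Nat.cast_nonneg _) w6 _) (pow_le_pow_left₀ hL'0.le hL'2 _) (by positivity) (by positivity)
        _ ≤ (x : ℝ) ^ (f l).natDegree * L ^ C := by
            apply mul_le_mul_of_nonneg_left _ (by positivity)
            rw [← pow_mul]
            exact pow_le_pow_right₀ hL1 (by rw [hC]; omega)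
        _ ≤ N := (hx l).2
        _ ≤ ((N * K : ℕ) : ℝ) := by
            push_cast
            exact le_mul_of_one_le_right hN0.le hKr1) (by
      refine w7.trans ?_
      have h1 : (x1 : ℝ) < x2 := by exact_mod_cast w1
      apply mul_le_mul_of_nonneg_left _ (by linarith)
      exact pow_le_pow_left₀ hL0.le hLL' _)
  -- the point
  obtain ⟨u, hu⟩ : ∃ u : ℤ, u = (u0 : ℤ) + M * (m : ℤ) := ⟨_, rfl⟩
  obtain ⟨wl, hwl⟩ : ∃ wl : Fin k → ℤ, wl = fun l => (b l : ℤ) + (F l).eval (m : ℤ) := ⟨_, rfl⟩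
  have hwl1 : ∀ l, 1 ≤ wl l := fun l => by rw [hwl]; exact (hm3 l).1
  have hval : ∀ l, (GG (f l) D).eval u + (D : ℤ) ^ (2 * (f l).natDegree) * (a l : ℤ) = (c0 l : ℤ) * wl l := by
    intro l
    rw [hwl]
    simp only
    rw [mul_add, hF3 l, hbκ l, hκc l, hV0l l, hu]
    ring
  have hup : ∀ p ∈ S, ‖(u : ℚ_[((p : Nat.Primes) : ℕ)]) - D * v p‖ ≤ (((p : ℕ) : ℝ) ^ E0)⁻¹ := by
    intro p hp
    rw [hu]
    exact hu0 (m : ℤ) p hp
  obtain ⟨g1, g2⟩ := arith f (fun l => (a l : ℤ)) j δ c hδ hc S n E0 hE0l h2S hS1 v hv1 hv2 hv3 hreal u D hD hup c0 wl hwl1 (by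
      intro l
      have h1 := (hm3 l).2
      have h2 : (wl l).natAbs = ((b l : ℤ) + (F l).eval (m : ℤ)).toNat := by
        have h3 := hwl1 l
        rw [hwl] at h3 ⊢
        simp only at h3 ⊢
        omega
      rw [h2]
      exact h1) (by
      intro l p hp
      have h1 : (p : ℕ) ∣ ∏ q ∈ S, (q : ℕ) ^ E0 := by rw [← hM]; exact hp.trans (hc0M l)
      exact mem_of_dvd_prod S E0 p h1) hc00 hval
  have hDr0 : (0 : ℝ) < D := by linarith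
  have hqr : ((((u : ℚ) / D : ℚ)) : ℝ) = (u : ℝ) / D := by push_cast; rfl
  refine ⟨(u : ℚ) / D, ?_, ?_, ?_, ?_, ?_, g2⟩
  · rw [hqr, lt_div_iff₀ hDr0, mul_comm]
    have h1 := w2 m hm1
    have h2 : ((u : ℤ) : ℝ) = (u0 : ℝ) + M * m := by rw [hu]; push_cast; ring
    rw [h2]
    have : (0 : ℝ) ≤ u0 := Nat.cast_nonneg _
    linarith
  · rw [hqr, div_le_iff₀ hDr0, mul_comm (τ + w)]
    have h1 := w3 m hm2
    have h2 : ((u : ℤ) : ℝ) = (u0 : ℝ) + M * m := by rw [hu]; push_cast; ring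
    rw [h2]
    have : (u0 : ℝ) ≤ M := by exact_mod_cast hu0M.le
    linarith
  · intro p hp
    have hDn : ‖(D : ℚ_[(p : ℕ)])‖ = (((p : ℕ) : ℝ) ^ n)⁻¹ := by
      rw [hD]
      exact norm_D S n p hp
    have hDF : (D : ℚ_[(p : ℕ)]) ≠ 0 := by exact_mod_cast hD0
    have hp1 : (1 : ℝ) < ((p : ℕ) : ℝ) := one_lt_p (p := (p : ℕ))
    have hpp : (0 : ℝ) < ((p : ℕ) : ℝ) := by linarith
    have e1 : ((((u : ℚ) / D : ℚ)) : ℚ_[(p : ℕ)]) - v p = ((u : ℚ_[(p : ℕ)]) - D * v p) / D := by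
      push_cast
      field_simp
    rw [e1, norm_div, hDn, div_inv_eq_mul]
    calc ‖(u : ℚ_[(p : ℕ)]) - D * v p‖ * ((p : ℕ) : ℝ) ^ n ≤ (((p : ℕ) : ℝ) ^ E0)⁻¹ * ((p : ℕ) : ℝ) ^ n :=
          mul_le_mul_of_nonneg_right (hup p hp) (by positivity)
      _ ≤ (((p : ℕ) : ℝ) ^ (n + n))⁻¹ * ((p : ℕ) : ℝ) ^ n := by
          apply mul_le_mul_of_nonneg_right _ (by positivity)
          apply inv_anti₀ (by positivity)
          apply pow_le_pow_right₀ hp1.le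
          rw [hE0]
          nlinarith
      _ = _ := by
          rw [pow_add, mul_inv]
          field_simp
  · have h1 := Rat.den_dvd u (D : ℤ)
    rw [Rat.divInt_eq_div] at h1
    have h2 : (((u : ℚ) / D).den : ℤ) ∣ (D : ℤ) := by
      have e : ((u : ℚ) / D) = (u : ℚ) / ((D : ℤ) : ℚ) := by push_cast; rfl
      rw [e]
      exact h1
    have h3 : ((u : ℚ) / D).den ∣ D := by exact_mod_cast h2
    calc ((((u : ℚ) / D).den : ℕ) : ℝ) ≤ D := by exact_mod_cast Nat.le_of_dvd hD1 h3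
      _ ≤ _ := hDT
  · intro l
    rw [hqr]
    exact g1 l

end Pool.Agent.Run7.h18.WA
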