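import Mathlib
import Pool.Agent.Run7.h18.WA.W4

/-! Weak approximation for almost all constant terms and all data at once. -/

set_option autoImplicit false

namespace Pool.Agent.Run7.h18.WA

open Finset Filter Polynomial
open Pool.Agent.W313.BMX (Splits splits_swap splits_comm splits_mul_sq)
open Pool.Agent.TH204.HP
open Pool.Agent.Y714.RC (PP glueR)
open Pool.Agent.Run7.h18.MK (ev)

/-- the point `(t, y, z)` lies on `y_i² - δ_i z_i² = c_i (a_{j(i)} + f_{j(i)}(t))`, with all the `a_l + f_l(t) ≠ 0` -/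
def OnC {k r : ℕ} (f : Fin k → ℤ[X]) (a : Fin k → ℕ) (j : Fin r → Fin k) (δ c : Fin r → ℤ) {F : Type} [Field F]
    (t : F) (y z : Fin r → F) : Prop :=
  (∀ l, (a l : F) + aeval t (f l) ≠ 0) ∧
    ∀ i, y i ^ 2 - (δ i : F) * z i ^ 2 = (c i : F) * ((a (j i) : F) + aeval t (f (j i)))

lemma PP_eq {k : ℕ} (f : Fin k → ℤ[X]) (a : Fin k → ℕ) (l : Fin k) {F : Type} [Field F] (t : F) :
    PP f (fun l => (a l : ℤ)) l t = (a l : F) + aeval t (f l) := by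
  unfold PP
  push_cast
  ring

/-- the real values of the polynomials -/
lemma real_val (f : ℤ[X]) (d : ℕ) (hf : f.natDegree ≤ d) (H : ℝ) (hH : ∀ i, |((f.coeff i : ℤ) : ℝ)| ≤ H) (x t : ℝ) (hx : 1 ≤ x) (ht0 : 0 ≤ t) (ht : t ≤ x) :
    |aeval t f| ≤ (d + 1) * H * x ^ f.natDegree := by
  have hH0 : 0 ≤ H := (abs_nonneg _).trans (hH 0)
  rw [aeval_eq_sum_range]
  refine (abs_sum_le_sum_abs _ _).trans ?_
  calc ∑ i ∈ range (f.natDegree + 1), |f.coeff i • t ^ i| ≤ ∑ _i ∈ range (f.natDegree + 1), H * x ^ f.natDegree := by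
        refine sum_le_sum fun i hi => ?_
        rw [zsmul_eq_mul, abs_mul, abs_of_nonneg (show 0 ≤ t ^ i by positivity)]
        apply mul_le_mul (hH i) _ (by positivity) hH0
        calc t ^ i ≤ x ^ i := pow_le_pow_left₀ ht0 ht _
          _ ≤ _ := pow_le_pow_right₀ hx (by rw [mem_range] at hi; omega)
    _ = (f.natDegree + 1) * (H * x ^ f.natDegree) := by
        rw [sum_const, card_range, nsmul_eq_mul]
        push_cast
        ring
    _ ≤ (d + 1) * (H * x ^ f.natDegree) := by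
        apply mul_le_mul_of_nonneg_right _ (by positivity)
        have : (f.natDegree : ℝ) ≤ d := by exact_mod_cast hf
        linarith
    _ = _ := by ring

/-- **Weak approximation.** -/
theorem wa_all (k d T U : ℕ) (hk : 1 ≤ k) (hd : 1 ≤ d) : ∃ C N₀ : ℕ, ∀ N : ℕ, N₀ ≤ N →
    ∃ Ex : Finset (Fin k → ℕ), (Ex.card : ℝ) ≤ (N : ℝ) ^ k / Real.log N ^ U ∧
    ∀ a ∈ Fintype.piFinset (fun _ : Fin k => Icc 1 N), a ∉ Ex →
    ∀ f : Fin k → ℤ[X], (∀ l, 1 ≤ (f l).natDegree ∧ (f l).natDegree ≤ d ∧ ∀ j, |(((f l).coeff j : ℤ) : ℝ)| ≤ Real.log N ^ T) →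
    ∀ (r : ℕ) (j : Fin r → Fin k) (δ c : Fin r → ℤ), (∀ i, δ i ≠ 0) → (∀ i, c i ≠ 0) →
    ∀ (S : Finset Nat.Primes) (n : ℕ), 1 ≤ n → (∀ p : Nat.Primes, (p : ℕ) = 2 → p ∈ S) →
      (∀ p : Nat.Primes, (∃ i, ((p : ℕ) : ℤ) ∣ δ i ∨ ((p : ℕ) : ℤ) ∣ c i) → p ∈ S) →
      (∀ p : Nat.Primes, (p : ℕ) ≤ ∑ l, (f l).natDegree → p ∈ S) →
      (∀ p : Nat.Primes, (∃ l, ((p : ℕ) : ℤ) ∣ (f l).leadingCoeff) → p ∈ S) →
      ((∏ p ∈ S, (p : ℕ) ^ n : ℕ) : ℝ) ≤ Real.log N ^ T →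
    ∀ x : ℕ, (∀ l, (N : ℝ) ^ (1 / 3 : ℝ) * Real.log N ^ C ≤ (x : ℝ) ^ (f l).natDegree ∧
      (x : ℝ) ^ (f l).natDegree * Real.log N ^ C ≤ N) →
    ∀ (t : (p : Nat.Primes) → ℚ_[(p : ℕ)]) (y z : (p : Nat.Primes) → Fin r → ℚ_[(p : ℕ)]) (tr : ℝ) (yr zr : Fin r → ℝ),
      (∀ p ∈ S, OnC f a j δ c (t p) (y p) (z p) ∧ ‖t p‖ ≤ ((p : ℕ) : ℝ) ^ n ∧
        (∀ i, ‖y p i‖ ≤ ((p : ℕ) : ℝ) ^ n ∧ ‖z p i‖ ≤ ((p : ℕ) : ℝ) ^ n ∧ (((p : ℕ) : ℝ) ^ n)⁻¹ ≤ ‖(c i : ℚ_[((p : Nat.Primes) : ℕ)])‖) ∧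
        ∀ l, (((p : ℕ) : ℝ) ^ n)⁻¹ ≤ ‖(a l : ℚ_[((p : Nat.Primes) : ℕ)]) + aeval (t p) (f l)‖) →
      OnC f a j δ c tr yr zr → 0 ≤ tr → tr ≤ x →
      (∀ i, |yr i| ≤ Real.sqrt N * Real.log N ^ T ∧ |zr i| ≤ Real.sqrt N * Real.log N ^ T) →
    ∃ (q : ℚ) (Y Z : Fin r → ℚ), OnC f a j δ c q Y Z ∧
      (∀ p ∈ S, ‖((q : ℚ) : ℚ_[((p : Nat.Primes) : ℕ)]) - t p‖ ≤ (((p : ℕ) : ℝ) ^ n)⁻¹ ∧
        ∀ i, ‖((Y i : ℚ) : ℚ_[((p : Nat.Primes) : ℕ)]) - y p i‖ ≤ (((p : ℕ) : ℝ) ^ n)⁻¹ ∧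
          ‖((Z i : ℚ) : ℚ_[((p : Nat.Primes) : ℕ)]) - z p i‖ ≤ (((p : ℕ) : ℝ) ^ n)⁻¹) ∧
      0 < q ∧ (q : ℝ) ≤ x ∧ (q.den : ℝ) ≤ Real.log N ^ C ∧ |(q : ℝ) - tr| ≤ x / Real.log N ^ T ∧
      ∀ i, |((Y i : ℚ) : ℝ) - yr i| ≤ Real.sqrt N / Real.log N ^ T ∧ |((Z i : ℚ) : ℝ) - zr i| ≤ Real.sqrt N / Real.log N ^ T := by
  classical
  -- the level
  obtain ⟨A, hA⟩ : ∃ A, A = (2 * (k * d) + 3) * 2 + 3 := ⟨_, rfl⟩
  obtain ⟨T', hT'⟩ : ∃ T', T' = A * T := ⟨_, rfl⟩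
  have hTT' : T ≤ T' := by
    rw [hT']
    exact Nat.le_mul_of_pos_left _ (by rw [hA]; omega)
  obtain ⟨C0, N₁, hbase⟩ := base_pt k d T' U hk hd
  obtain ⟨N₂, hev⟩ := ev 1 (8 + d)
  obtain ⟨C, hC⟩ : ∃ C, C = C0 + T' + 3 * T + U + 6 := ⟨_, rfl⟩
  refine ⟨C, N₁ + N₂ + 3, fun N hN => ?_⟩
  obtain ⟨Ex, hE1, hE2⟩ := hbase N (by omega)
  obtain ⟨hLK, -⟩ := hev N (by omega)
  obtain ⟨L, hL⟩ : ∃ L, L = Real.log (N : ℝ) := ⟨_, rfl⟩
  rw [← hL] at hLK hE1 hE2 ⊢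
  have hN0 : (0 : ℝ) < N := by exact_mod_cast (by omega : 0 < N)
  have q2 : (0 : ℝ) ≤ (d : ℝ) := Nat.cast_nonneg _
  have hL8 : 8 ≤ L := by linarith
  have hL1 : 1 ≤ L := by linarith
  have hL0 : 0 < L := by linarith
  refine ⟨Ex, hE1, fun a ha haE f hf r j δ c hδ hc S n hn h2S hS1 hS2 hS3 hDT x hx t y z tr yr zr hloc hre htr0 htrx hyzr => ?_⟩
  obtain ⟨hal, hE2⟩ := hE2 a ha haE
  -- `x`
  obtain ⟨hx1, hx2⟩ := hx ⟨0, hk⟩
  have hxe : (0 : ℝ) < (x : ℝ) ^ (f ⟨0, hk⟩).natDegree := lt_of_lt_of_le (by positivity) hx1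
  have hxn : 1 ≤ x := by
    rcases Nat.eq_zero_or_pos x with h | h
    · have := (hf ⟨0, hk⟩).1
      rw [h, Nat.cast_zero, zero_pow (by omega)] at hxe
      exact absurd hxe (lt_irrefl _)
    · exact h
  have hxr : (1 : ℝ) ≤ x := by exact_mod_cast hxn
  -- the values of the polynomials are small
  have hsmall : ∀ l, ∀ s : ℝ, 0 ≤ s → s ≤ x → |aeval s (f l)| * L ^ (U + 2 * T + 4) ≤ N := by
    intro l s hs0 hs
    obtain ⟨g1, g2, g3⟩ := hf l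
    have h1 := real_val (f l) d g2 (L ^ T) g3 x s hxr hs0 hs
    calc |aeval s (f l)| * L ^ (U + 2 * T + 4) ≤ ((d + 1) * L ^ T * (x : ℝ) ^ (f l).natDegree) * L ^ (U + 2 * T + 4) := by gcongr
      _ ≤ (L * L ^ T * (x : ℝ) ^ (f l).natDegree) * L ^ (U + 2 * T + 4) := by
          have : (d : ℝ) + 1 ≤ L := by linarith
          gcongr
      _ = (x : ℝ) ^ (f l).natDegree * L ^ (U + 3 * T + 5) := by ring
      _ ≤ (x : ℝ) ^ (f l).natDegree * L ^ C := by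
          apply mul_le_mul_of_nonneg_left _ (by positivity)
          exact pow_le_pow_right₀ hL1 (by rw [hC]; omega)
      _ ≤ N := (hx l).2
  have haU : ∀ l, (N : ℝ) < a l * L ^ (U + 2) := by
    intro l
    have := hal l
    rwa [div_lt_iff₀ (by positivity)] at this
  -- relative size
  have hrel : ∀ l, ∀ s : ℝ, 0 ≤ s → s ≤ x → |aeval s (f l)| * L ^ (2 * T + 2) ≤ a l := by
    intro l s hs0 hs
    have h1 := (hsmall l s hs0 hs).trans (haU l).le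
    have e : |aeval s (f l)| * L ^ (U + 2 * T + 4) = (|aeval s (f l)| * L ^ (2 * T + 2)) * L ^ (U + 2) := by
      rw [mul_assoc, ← pow_add]
      congr 2
      ring
    rw [e] at h1
    exact le_of_mul_le_mul_right h1 (by positivity)
  have hLT2 : (4 : ℝ) ≤ L ^ (2 * T + 2) := by
    calc (4 : ℝ) ≤ L := by linarith
      _ ≤ _ := le_self_pow₀ hL1 (by omega)
  have hpos : ∀ l, ∀ s : ℝ, 0 ≤ s → s ≤ x → (a l : ℝ) / 2 ≤ (a l : ℝ) + aeval s (f l) ∧ 0 < (a l : ℝ) := by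
    intro l s hs0 hs
    have h1 := hrel l s hs0 hs
    have ha0 : (0 : ℝ) < a l := lt_of_le_of_lt (by positivity) (hal l)
    have h2 : |aeval s (f l)| * 4 ≤ a l := (mul_le_mul_of_nonneg_left hLT2 (abs_nonneg _)).trans h1
    have h3 := (abs_le.1 (le_refl |aeval s (f l)|)).1
    constructor <;> linarith
  have hreal : ∀ i, δ i < 0 → 0 < c i := by
    intro i hi
    have h1 := hre.2 i
    have hp := (hpos (j i) tr htr0 htrx)
    have h2 : 0 < (a (j i) : ℝ) + aeval tr (f (j i)) := by linarith [hp.1, hp.2]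
    have h3 : 0 ≤ (c i : ℝ) * ((a (j i) : ℝ) + aeval tr (f (j i))) := by
      rw [← h1]
      have h4 : (δ i : ℝ) < 0 := by exact_mod_cast hi
      nlinarith [sq_nonneg (yr i), sq_nonneg (zr i), mul_nonneg (neg_nonneg.2 h4.le) (sq_nonneg (zr i))]
    have h4 : 0 ≤ (c i : ℝ) := by
      by_contra hcon
      push Not at hcon
      nlinarith
    have h5 : (0 : ℤ) ≤ c i := by exact_mod_cast h4
    exact lt_of_le_of_ne h5 (hc i).symm
  -- the level of the base point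
  obtain ⟨n', hn'⟩ : ∃ n', n' = (2 * (k * d) + 3) * (2 * n) + 3 := ⟨_, rfl⟩
  have hnn' : n ≤ n' := by
    have : 2 * n ≤ (2 * (k * d) + 3) * (2 * n) := Nat.le_mul_of_pos_left _ (by omega)
    omega
  have hn'A : n' ≤ n * A := by rw [hn', hA]; nlinarith
  have hDT' : ((∏ p ∈ S, (p : ℕ) ^ n' : ℕ) : ℝ) ≤ L ^ T' := by
    have h1 : ∏ p ∈ S, (p : ℕ) ^ n' ≤ (∏ p ∈ S, (p : ℕ) ^ n) ^ A := by
      rw [← prod_pow]
      apply prod_le_prod' fun p _ => ?_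
      rw [← pow_mul]
      exact Nat.pow_le_pow_right p.2.pos hn'A
    calc ((∏ p ∈ S, (p : ℕ) ^ n' : ℕ) : ℝ) ≤ (((∏ p ∈ S, (p : ℕ) ^ n : ℕ)) : ℝ) ^ A := by exact_mod_cast h1
      _ ≤ (L ^ T) ^ A := pow_le_pow_left₀ (Nat.cast_nonneg _) hDT _
      _ = _ := by rw [← pow_mul, hT', mul_comm]
  -- the window
  obtain ⟨w, hw⟩ : ∃ w : ℝ, w = x / (2 * L ^ T) := ⟨_, rfl⟩
  have hLT1 : (1 : ℝ) ≤ L ^ T := one_le_pow₀ hL1
  have hw0 : 0 < w := by rw [hw]; positivity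
  have hwx : w ≤ x / 2 := by
    rw [hw]
    apply div_le_div_of_nonneg_left (by positivity) (by norm_num)
    linarith
  have hw2 : 2 * w = x / L ^ T := by rw [hw]; field_simp
  have hwL : (x : ℝ) ≤ w * L ^ (T' + 1) := by
    have h1 : (x : ℝ) = w * (2 * L ^ T) := by rw [hw]; field_simp
    have h2 : 2 * L ^ T ≤ L ^ (T' + 1) := by
      rw [pow_succ']
      exact mul_le_mul (by linarith) (pow_le_pow_right₀ hL1 hTT') (by positivity) hL0.le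
    calc (x : ℝ) = w * (2 * L ^ T) := h1
      _ ≤ _ := mul_le_mul_of_nonneg_left h2 hw0.le
  obtain ⟨τ, hτ0, hτ1, hτ2, hτ3⟩ : ∃ τ : ℝ, 0 ≤ τ ∧ (τ = 0 ∨ w ≤ τ) ∧ τ + w ≤ x ∧ ∀ s : ℝ, τ < s → s ≤ τ + w → |s - tr| ≤ 2 * w := by
    by_cases h : tr ≤ 2 * w
    · refine ⟨0, le_rfl, Or.inl rfl, by linarith, fun s hs1 hs2 => ?_⟩
      rw [abs_le]
      constructor <;> linarith
    · push Not at h
      refine ⟨tr - w, by linarith, Or.inr (by linarith), by linarith, fun s hs1 hs2 => ?_⟩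
      rw [abs_le]
      constructor <;> linarith
  -- the base point
  obtain ⟨q, b1, b2, b3, b4, b5, b6⟩ := hE2 f (fun l => ⟨(hf l).1, (hf l).2.1, fun i => ((hf l).2.2 i).trans (pow_le_pow_right₀ hL1 hTT')⟩)
    r j δ c hδ hc hreal S n' (by omega) h2S hS1 hS2 hS3 hDT' t (by
      intro p hp
      have hp1 : (1 : ℝ) < ((p : ℕ) : ℝ) := one_lt_p (p := (p : ℕ))
      exact (hloc p hp).2.1.trans (pow_le_pow_right₀ hp1.le hnn')) (by
      intro p hp l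
      have hp1 : (1 : ℝ) < ((p : ℕ) : ℝ) := one_lt_p (p := (p : ℕ))
      rw [PP_eq]
      refine le_trans ?_ ((hloc p hp).2.2.2 l)
      apply inv_anti₀ (by positivity)
      exact pow_le_pow_right₀ hp1.le hnn') (by
      intro p hp i
      rw [PP_eq]
      have h2 := (hloc p hp).1
      exact (conic_iff _ _ (by exact_mod_cast hδ i) (mul_ne_zero (by exact_mod_cast hc i) (h2.1 (j i)))).1 ⟨y p i, z p i, h2.2 i⟩)
    x (fun l => ⟨le_trans (mul_le_mul_of_nonneg_left (pow_le_pow_right₀ hL1 (by rw [hC]; omega)) (by positivity)) (hx l).1,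
      le_trans (mul_le_mul_of_nonneg_left (pow_le_pow_right₀ hL1 (by rw [hC]; omega)) (by positivity)) (hx l).2⟩)
    τ w hτ0 hw0.le (by
      rcases hτ1 with h | h
      · exact Or.inl h
      · right
        exact hwL.trans (mul_le_mul_of_nonneg_right h (by positivity))) hwL hτ2
  have hq0 : (0 : ℝ) < q := lt_of_le_of_lt hτ0 b1
  have hqx : (q : ℝ) ≤ x := b2.trans hτ2
  have hcastR : ∀ l, (((a l : ℚ) + aeval q (f l) : ℚ) : ℝ) = (a l : ℝ) + aeval (q : ℝ) (f l) := by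
    intro l
    have h1 : aeval (q : ℝ) (f l) = ((aeval q (f l) : ℚ) : ℝ) := aeval_algebraMap_apply ℝ q (f l)
    rw [h1]
    push_cast
    rfl
  have hcastP : ∀ (p : Nat.Primes) l, (((a l : ℚ) + aeval q (f l) : ℚ) : ℚ_[(p : ℕ)]) = (a l : ℚ_[(p : ℕ)]) + aeval (q : ℚ_[(p : ℕ)]) (f l) := by
    intro p l
    have h1 : aeval (q : ℚ_[(p : ℕ)]) (f l) = ((aeval q (f l) : ℚ) : ℚ_[(p : ℕ)]) := aeval_algebraMap_apply ℚ_[(p : ℕ)] q (f l)
    rw [h1]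
    push_cast
    rfl
  have hne : ∀ l, (a l : ℚ) + aeval q (f l) ≠ 0 := by
    intro l h0
    have h1 := hcastR l
    rw [h0, Rat.cast_zero] at h1
    have h2 := hpos l q hq0.le hqx
    linarith [h2.1, h2.2]
  -- the fibres
  have hfib : ∀ i : Fin r, ∃ Y Z : ℚ, Y ^ 2 - (δ i : ℚ) * Z ^ 2 = c i * ((a (j i) : ℚ) + aeval q (f (j i))) ∧
      (∀ p ∈ S, ‖((Y : ℚ) : ℚ_[((p : Nat.Primes) : ℕ)]) - y p i‖ ≤ (((p : ℕ) : ℝ) ^ n)⁻¹ ∧
        ‖((Z : ℚ) : ℚ_[((p : Nat.Primes) : ℕ)]) - z p i‖ ≤ (((p : ℕ) : ℝ) ^ n)⁻¹) ∧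
      |(Y : ℝ) - yr i| ≤ Real.sqrt N / L ^ T ∧ |(Z : ℝ) - zr i| ≤ Real.sqrt N / L ^ T := by
    intro i
    have hsQ : Splits (δ i : ℚ) (c i * ((a (j i) : ℚ) + aeval q (f (j i)))) := by
      have h1 := b6 i
      rw [PP_eq] at h1
      exact h1
    have hbQ : (c i : ℚ) * ((a (j i) : ℚ) + aeval q (f (j i))) ≠ 0 := mul_ne_zero (by exact_mod_cast hc i) (hne (j i))
    have hsN : 0 < Real.sqrt N := Real.sqrt_pos.2 hN0
    obtain ⟨Y, Z, h1, h2, h3, h4⟩ := glueR (δ i) (hδ i) _ hbQ hsQ S n (2 * n)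
      (fun p => (c i : ℚ_[(p : ℕ)]) * ((a (j i) : ℚ_[(p : ℕ)]) + aeval (t p) (f (j i)))) (by
        intro p hp
        have hp1 : (1 : ℝ) < ((p : ℕ) : ℝ) := one_lt_p (p := (p : ℕ))
        rw [norm_mul, two_mul, pow_add, mul_inv]
        exact mul_le_mul ((hloc p hp).2.2.1 i).2.2 ((hloc p hp).2.2.2 (j i)) (by positivity) (norm_nonneg _))
      (fun p => y p i) (fun p => z p i) (fun p hp => ((hloc p hp).2.2.1 i).1) (fun p hp => ((hloc p hp).2.2.1 i).2.1)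
      (fun p hp => (hloc p hp).1.2 i) (by
        intro p hp
        have hp1 : (1 : ℝ) < ((p : ℕ) : ℝ) := one_lt_p (p := (p : ℕ))
        have hp0 : (0 : ℝ) < ((p : ℕ) : ℝ) := by linarith
        have e : (((c i : ℚ) * ((a (j i) : ℚ) + aeval q (f (j i))) : ℚ) : ℚ_[(p : ℕ)]) -
            (c i : ℚ_[(p : ℕ)]) * ((a (j i) : ℚ_[(p : ℕ)]) + aeval (t p) (f (j i))) =
            (c i : ℚ_[(p : ℕ)]) * (aeval (q : ℚ_[(p : ℕ)]) (f (j i)) - aeval (t p) (f (j i))) := by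
          rw [Rat.cast_mul, hcastP]
          push_cast
          ring
        rw [e, norm_mul]
        have ht1 : ‖t p‖ ≤ ((p : ℕ) : ℝ) ^ (2 * n) := (hloc p hp).2.1.trans (pow_le_pow_right₀ hp1.le (by omega))
        have hq1 : ‖(q : ℚ_[(p : ℕ)])‖ ≤ ((p : ℕ) : ℝ) ^ (2 * n) := by
          have e2 : (q : ℚ_[(p : ℕ)]) = ((q : ℚ_[(p : ℕ)]) - t p) + t p := by ring
          rw [e2]
          refine (Padic.nonarchimedean _ _).trans (max_le ((b3 p hp).trans ?_) ht1)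
          calc (((p : ℕ) : ℝ) ^ n')⁻¹ ≤ 1 := inv_le_one_of_one_le₀ (one_le_pow₀ hp1.le)
            _ ≤ _ := one_le_pow₀ hp1.le
        have hfd : (f (j i)).natDegree ≤ k * d := by
          calc (f (j i)).natDegree ≤ d := (hf (j i)).2.1
            _ ≤ k * d := Nat.le_mul_of_pos_left _ hk
        have h3 := lip2 (f (j i)) S (2 * n) p hp (q : ℚ_[(p : ℕ)]) (t p) hq1 ht1 (by
          refine (b3 p hp).trans ?_
          apply inv_anti₀ (by positivity)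
          apply pow_le_pow_right₀ hp1.le
          rw [hn']
          have h5 : (2 * (f (j i)).natDegree + 3) * (2 * n) ≤ (2 * (k * d) + 3) * (2 * n) := Nat.mul_le_mul_right _ (by omega)
          omega)
        have hcn : ‖(c i : ℚ_[(p : ℕ)])‖ ≤ 1 := Padic.norm_int_le_one (c i)
        calc ‖(c i : ℚ_[(p : ℕ)])‖ * ‖aeval (q : ℚ_[(p : ℕ)]) (f (j i)) - aeval (t p) (f (j i))‖ ≤
            1 * (((p : ℕ) : ℝ) ^ (3 * (2 * n) + 3))⁻¹ := mul_le_mul hcn h3 (norm_nonneg _) zero_le_one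
          _ ≤ _ := by
              rw [one_mul]
              apply inv_anti₀ (by positivity)
              apply pow_le_pow_right₀ hp1.le
              omega)
      ((c i : ℝ) * ((a (j i) : ℝ) + aeval tr (f (j i)))) (yr i) (zr i) (1 / (2 * L ^ (2 * T))) (Real.sqrt N * L ^ T) (hre.2 i)
      (mul_ne_zero (by exact_mod_cast hc i) (hre.1 (j i))) (by positivity) (by
        apply one_div_le_one_div_of_le (by norm_num)
        have : (1 : ℝ) ≤ L ^ (2 * T) := one_le_pow₀ hL1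
        linarith) (by positivity) (by
        rw [Rat.cast_mul, hcastR]
        have e : ((c i : ℚ) : ℝ) * ((a (j i) : ℝ) + aeval (q : ℝ) (f (j i))) - (c i : ℝ) * ((a (j i) : ℝ) + aeval tr (f (j i))) =
            (c i : ℝ) * (aeval (q : ℝ) (f (j i)) - aeval tr (f (j i))) := by
          push_cast
          ring
        rw [e, abs_mul, abs_mul]
        have g1 := hrel (j i) q hq0.le hqx
        have g2 := hrel (j i) tr htr0 htrx
        have g3 := hpos (j i) tr htr0 htrx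
        have g4 : |aeval (q : ℝ) (f (j i)) - aeval tr (f (j i))| ≤ |aeval (q : ℝ) (f (j i))| + |aeval tr (f (j i))| := abs_sub _ _
        have g5 : |(a (j i) : ℝ) + aeval tr (f (j i))| = (a (j i) : ℝ) + aeval tr (f (j i)) := abs_of_nonneg (by linarith [g3.1, g3.2])
        rw [g5]
        have hLp : (0 : ℝ) < L ^ (2 * T) := by positivity
        have g6 : |aeval (q : ℝ) (f (j i)) - aeval tr (f (j i))| ≤ 1 / (2 * L ^ (2 * T)) * ((a (j i) : ℝ) + aeval tr (f (j i))) := by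
          rw [div_mul_eq_mul_div, one_mul, le_div_iff₀ (by positivity)]
          have e2 : L ^ (2 * T + 2) = L ^ (2 * T) * L ^ 2 := pow_add _ _ _
          rw [e2] at g1 g2
          have g7 : 8 ≤ L ^ 2 := by nlinarith
          have g8 : (|aeval (q : ℝ) (f (j i))| + |aeval tr (f (j i))|) * (L ^ (2 * T) * L ^ 2) ≤ 2 * a (j i) := by linarith
          have g9 : (|aeval (q : ℝ) (f (j i))| + |aeval tr (f (j i))|) * (L ^ (2 * T) * 8) ≤ (|aeval (q : ℝ) (f (j i))| + |aeval tr (f (j i))|) * (L ^ (2 * T) * L ^ 2) := by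
            gcongr
          have g10 : |aeval (q : ℝ) (f (j i)) - aeval tr (f (j i))| * (2 * L ^ (2 * T)) ≤ (|aeval (q : ℝ) (f (j i))| + |aeval tr (f (j i))|) * (2 * L ^ (2 * T)) :=
            mul_le_mul_of_nonneg_right g4 (by positivity)
          have g11 : (|aeval (q : ℝ) (f (j i))| + |aeval tr (f (j i))|) * (2 * L ^ (2 * T)) = (|aeval (q : ℝ) (f (j i))| + |aeval tr (f (j i))|) * (L ^ (2 * T) * 8) / 4 := by ring
          rw [g11] at g10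
          linarith [g3.1, g3.2]
        calc |(c i : ℝ)| * |aeval (q : ℝ) (f (j i)) - aeval tr (f (j i))| ≤
            |(c i : ℝ)| * (1 / (2 * L ^ (2 * T)) * ((a (j i) : ℝ) + aeval tr (f (j i)))) := mul_le_mul_of_nonneg_left g6 (abs_nonneg _)
          _ = _ := by ring) (hyzr i).1 (hyzr i).2
    have e3 : 2 * (1 / (2 * L ^ (2 * T))) * (Real.sqrt N * L ^ T) = Real.sqrt N / L ^ T := by
      rw [two_mul T, pow_add]
      field_simp
    rw [e3] at h3 h4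
    exact ⟨Y, Z, h1, h2, h3, h4⟩
  choose Y Z hYZ1 hYZ2 hYZ3 hYZ4 using hfib
  refine ⟨q, Y, Z, ⟨hne, hYZ1⟩, fun p hp => ⟨(b3 p hp).trans ?_, fun i => hYZ2 i p hp⟩, by exact_mod_cast hq0, hqx, ?_, ?_, fun i => ⟨hYZ3 i, hYZ4 i⟩⟩
  · have hp1 : (1 : ℝ) < ((p : ℕ) : ℝ) := one_lt_p (p := (p : ℕ))
    apply inv_anti₀ (by positivity)
    exact pow_le_pow_right₀ hp1.le hnn'
  · exact b4.trans (pow_le_pow_right₀ hL1 (by rw [hC]; omega))
  · rw [← hw2]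
    exact hτ3 q b1 b2

end Pool.Agent.Run7.h18.WA
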